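import Mathlib
set_option maxRecDepth 100000

namespace Pool.Agent.Helper131.FS

open MeasureTheory Set Filter Topology
open scoped ContDiff RealInnerProductSpace

/-- Euclidean space. -/
abbrev E (n : ℕ) := EuclideanSpace ℝ (Fin n)

/-- `P` is the orthogonal projection onto a `k`-dimensional linear subspace. -/
def IsPlane (n k : ℕ) (P : E n →L[ℝ] E n) : Prop :=
  (∀ x, P (P x) = P x) ∧ (∀ x y, ⟪P x, y⟫ = ⟪x, P y⟫) ∧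
    Module.finrank ℝ (LinearMap.range (P : E n →ₗ[ℝ] E n)) = k

/-- The divergence of the vector field `W` at `x` along the plane with projection `P`. -/
noncomputable def divP (n : ℕ) (P : E n →L[ℝ] E n) (W : E n → E n) (x : E n) : ℝ :=
  LinearMap.trace ℝ (E n) ((P : E n →ₗ[ℝ] E n) ∘ₗ ((fderiv ℝ W x : E n →L[ℝ] E n) : E n →ₗ[ℝ] E n))

/-- A (weak) free boundary minimal submanifold of dimension `k` of the unit ball: area measure `V` on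
pairs (point, tangent plane), boundary measure `σ`, and the first variation identity. -/
structure FreeBoundaryMinimal (n k : ℕ) where
  V : Measure (E n × (E n →L[ℝ] E n))
  σ : Measure (E n)
  finV : IsFiniteMeasure V
  finσ : IsFiniteMeasure σ
  in_ball : ∀ᵐ q ∂V, ‖q.1‖ ≤ 1
  plane : ∀ᵐ q ∂V, IsPlane n k q.2
  on_sphere : ∀ᵐ x ∂σ, ‖x‖ = 1
  first_variation : ∀ W : E n → E n, (∀ x, ‖x‖ ≤ 1 → ContDiffAt ℝ ∞ W x) →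
    ∫ q, divP n q.2 W q.1 ∂V = ∫ x, ⟪W x, x⟫ ∂σ

noncomputable def numX (m d r K : ℝ) : ℝ := 96*m^5*r*K^2 - 24*m^4*d^2*K^2 + 192*m^4*d*r*K^2 - 48*m^4*K^3 + 75*m^3*d^3*r^2*K - 48*m^3*d^3*K^2 + 72*m^3*d^2*r*K^2 - 96*m^3*d*K^3 + 24*m^2*d^5*r^3 - (15/2)*m^2*d^5*r*K + 142*m^2*d^4*r^2*K - 20*m^2*d^4*K^2 - (171/2)*m^2*d^3*r*K^2 - 42*m^2*d^2*K^3 + 4*m*d^7*r^2 + 48*m*d^6*r^3 - 15*m*d^6*r*K + 62*m*d^5*r^2*K + 8*m*d^5*K^2 - 79*m*d^4*r*K^2 + 12*m*d^3*K^3 + 8*d^8*r^2 + 24*d^7*r^3 - (15/2)*d^7*r*K - 4*d^6*r^2*K + 4*d^6*K^2 - (25/2)*d^5*r*K^2 + 6*d^4*K^3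

noncomputable def numY (m d r K : ℝ) : ℝ := 8*m^3*r*K^2 - m^2*d^2*K^2 + 16*m^2*d*r*K^2 - 3*m^2*K^3 - 2*m*d^3*K^2 + 8*m*d^2*r*K^2 - 6*m*d*K^3 + 4*d^6*r^2 + d^4*r^2*K - d^4*K^2 + 5*d^3*r*K^2 - 3*d^2*K^3

noncomputable def numW (m d r K : ℝ) : ℝ := 60*m^4*r*K^2 - 12*m^3*d^2*K^2 + 120*m^3*d*r*K^2 - 30*m^3*K^3 + 30*m^2*d^3*r^2*K - 24*m^2*d^3*K^2 + 56*m^2*d^2*r*K^2 - 60*m^2*d*K^3 + 58*m*d^4*r^2*K - 12*m*d^4*K^2 - 23*m*d^3*r*K^2 - 30*m*d^2*K^3 - 8*d^7*r^2 + 26*d^5*r^2*K - 29*d^4*r*K^2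

/-- the coefficient functions of the calibrating field `A p + B e` -/
noncomputable def fA (r K d m : ℝ) : ℝ :=
  (1/(d+m))*(1/d + (2*r-5*K/(8*r))*(1/d^2+m/d^3) + K*(1/d^3+2*m/d^4) + (5/4)*K*(m/d^4+3*m^2/d^5-1/d^3)
    - (5*K^2/(8*r))*(1/d^4+3*m/d^5))
  + (K^2/(2*r))*(6*m^3/d^8-2*m/d^6) - (K^2/(4*r^2))*(4*m^2/d^6-1/d^4) - (K^3/(4*r^2))*(6*m^2/d^8-1/d^6)

noncomputable def fB (r K d m : ℝ) : ℝ :=
  (1/(d+m))*(-1+K/d^2+(5/4)*K*m/d^3-(5/4)*K^2/(r*d^3)) + (K^2/r)*m^2/d^6 - (K^2/(4*r^2))*m/d^4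
    - (3*K^3/(4*r^2))*m/d^6

/-- partial derivatives -/
noncomputable def fAd (r K d m : ℝ) : ℝ := - numX m d r K / (4*r^2*(d+m)^2*d^9)

noncomputable def fBm (r K d m : ℝ) : ℝ := numY m d r K / (4*r^2*(d+m)^2*d^6)

noncomputable def fBd (r K d m : ℝ) : ℝ :=
  -(1/(d+m)^2)*(-1+K/d^2+(5/4)*K*m/d^3-(5/4)*K^2/(r*d^3))
  + (1/(d+m))*(-2*K/d^3-(15/4)*K*m/d^4+(15/4)*K^2/(r*d^4)) - 6*(K^2/r)*m^2/d^7 + (K^2/r^2)*m/d^5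
  + (9*K^3/(2*r^2))*m/d^7

noncomputable def fAm (r K d m : ℝ) : ℝ := numW m d r K / (4*r^2*(d+m)^2*d^8) + fBd r K d m / d

end Pool.Agent.Helper131.FS
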