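import Pool.Agent.Helper131.FS.Base
set_option maxRecDepth 100000
namespace Pool.Agent.Helper131.FS

noncomputable def q0 (m d K : ℝ) : ℝ := -48*m^5*d^4*K^4 - 240*m^5*d^2*K^5 - 324*m^5*K^6 - 144*m^4*d^5*K^4 - 720*m^4*d^3*K^5 - 972*m^4*d*K^6 - 160*m^3*d^6*K^4 - 792*m^3*d^4*K^5 - 1044*m^3*d^2*K^6 - 96*m^2*d^7*K^4 - 456*m^2*d^5*K^5 - 540*m^2*d^3*K^6 - 48*m*d^8*K^4 - 216*m*d^6*K^5 - 216*m*d^4*K^6 - 16*d^9*K^4 - 72*d^7*K^5 - 72*d^5*K^6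

noncomputable def q1 (m d K : ℝ) : ℝ := 288*m^6*d^2*K^4 + 912*m^6*K^5 + 864*m^5*d^3*K^4 + 2736*m^5*d*K^5 + 992*m^4*d^4*K^4 + 2976*m^4*d^2*K^5 + 30*m^3*d^7*K^3 + 72*m^3*d^5*K^4 + 222*m^3*d^3*K^5 + 90*m^2*d^8*K^3 - 416*m^2*d^6*K^4 - 1530*m^2*d^4*K^5 + 90*m*d^9*K^3 + 148*m*d^7*K^4 - 330*m*d^5*K^5 + 30*d^10*K^3 + 220*d^8*K^4 + 270*d^6*K^5

noncomputable def q2 (m d K : ℝ) : ℝ := -528*m^7*K^4 - 1584*m^6*d*K^4 - 1872*m^5*d^2*K^4 + 180*m^4*d^5*K^3 + 2028*m^4*d^3*K^4 - 384*m^3*d^8*K^2 - 340*m^3*d^6*K^3 + 5364*m^3*d^4*K^4 - 592*m^2*d^9*K^2 - 912*m^2*d^7*K^3 + 2304*m^2*d^5*K^4 - 176*m*d^10*K^2 - 510*m*d^8*K^3 - 1335*m*d^6*K^4 + 32*d^11*K^2 - 118*d^9*K^3 - 1019*d^7*K^4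

noncomputable def q3 (m d K : ℝ) : ℝ := -1200*m^5*d^3*K^3 + 1536*m^4*d^6*K^2 - 3232*m^4*d^4*K^3 + 2528*m^3*d^7*K^2 - 3216*m^3*d^5*K^3 + 672*m^2*d^8*K^2 + 880*m^2*d^6*K^3 - 120*m*d^11*K - 1110*m*d^9*K^2 + 3114*m*d^7*K^3 - 120*d^12*K - 630*d^10*K^2 + 1090*d^8*K^3

noncomputable def q4 (m d K : ℝ) : ℝ := 768*m^4*d^5*K^2 + 1404*m^3*d^6*K^2 + 1200*m^2*d^9*K + 24*m^2*d^7*K^2 + 1552*m*d^10*K - 828*m*d^8*K^2 + 64*d^13 + 384*d^11*K - 212*d^9*K^2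

noncomputable def q5 (m d K : ℝ) : ℝ := 384*m*d^11 + 96*m*d^9*K + 384*d^12 + 96*d^10*K

/-- numerator Q -/
noncomputable def numQ (m d r K : ℝ) : ℝ := q0 m d K * r^0 + q1 m d K * r^1 + q2 m d K * r^2 + q3 m d K * r^3 + q4 m d K * r^4 + q5 m d K * r^5

noncomputable def c_0_0 (m t : ℝ) : ℝ := 896*m^22 + 19200*m^21*t + 196224*m^20*t^2 + 1272320*m^19*t^3 + 5873280*m^18*t^4 + 20530944*m^17*t^5 + 56434560*m^16*t^6 + 125024256*m^15*t^7 + 226978560*m^14*t^8 + 341501440*m^13*t^9 + 428902656*m^12*t^10 + 451476480*m^11*t^11 + 398804224*m^10*t^12 + 295196160*m^9*t^13 + 182327040*m^8*t^14 + 93272064*m^7*t^15 + 39070080*m^6*t^16 + 13176576*m^5*t^17 + 3489920*m^4*t^18 + 698880*m^3*t^19 + 99456*m^2*t^20 + 8960*m*t^21 + 384*t^22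

theorem c_0_0_nonneg (m t : ℝ) (hm : 0 < m) (ht : 0 ≤ t) : 0 ≤ c_0_0 m t := by unfold c_0_0; positivity

noncomputable def c_0_1 (m t : ℝ) : ℝ := 4352*m^20 + 84608*m^19*t + 780672*m^18*t^2 + 4545408*m^17*t^3 + 18728832*m^16*t^4 + 58046976*m^15*t^5 + 140404224*m^14*t^6 + 271382016*m^13*t^7 + 425677824*m^12*t^8 + 547146496*m^11*t^9 + 579394816*m^10*t^10 + 506298624*m^9*t^11 + 364406016*m^8*t^12 + 214823424*m^7*t^13 + 102698496*m^6*t^14 + 39194112*m^5*t^15 + 11659008*m^4*t^16 + 2604672*m^3*t^17 + 411008*m^2*t^18 + 40832*m*t^19 + 1920*t^20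

theorem c_0_1_nonneg (m t : ℝ) (hm : 0 < m) (ht : 0 ≤ t) : 0 ≤ c_0_1 m t := by unfold c_0_1; positivity

noncomputable def c_0_2 (m t : ℝ) : ℝ := 8448*m^18 + 147456*m^17*t + 1214208*m^16*t^2 + 6266880*m^15*t^3 + 22717440*m^14*t^4 + 61415424*m^13*t^5 + 128314368*m^12*t^6 + 211820544*m^11*t^7 + 280051200*m^10*t^8 + 298721280*m^9*t^9 + 257647104*m^8*t^10 + 179232768*m^7*t^11 + 99800064*m^6*t^12 + 43868160*m^5*t^13 + 14883840*m^4*t^14 + 3760128*m^3*t^15 + 665856*m^2*t^16 + 73728*m*t^17 + 3840*t^18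

theorem c_0_2_nonneg (m t : ℝ) (hm : 0 < m) (ht : 0 ≤ t) : 0 ≤ c_0_2 m t := by unfold c_0_2; positivity

noncomputable def c_0_3 (m t : ℝ) : ℝ := 8192*m^16 + 126720*m^15*t + 917760*m^14*t^2 + 4130560*m^13*t^3 + 12929280*m^12*t^4 + 29842176*m^11*t^5 + 52532480*m^10*t^6 + 71934720*m^9*t^7 + 77425920*m^8*t^8 + 65711360*m^7*t^9 + 43819776*m^6*t^10 + 22713600*m^5*t^11 + 8968960*m^4*t^12 + 2607360*m^3*t^13 + 526080*m^2*t^14 + 65792*m*t^15 + 3840*t^16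

theorem c_0_3_nonneg (m t : ℝ) (hm : 0 < m) (ht : 0 ≤ t) : 0 ≤ c_0_3 m t := by unfold c_0_3; positivity

noncomputable def c_0_4 (m t : ℝ) : ℝ := 3968*m^14 + 53504*m^13*t + 334464*m^12*t^2 + 1284608*m^11*t^3 + 3386240*m^10*t^4 + 6479616*m^9*t^5 + 9280128*m^8*t^6 + 10103808*m^7*t^7 + 8401536*m^6*t^8 + 5308160*m^5*t^9 + 2507648*m^4*t^10 + 858624*m^3*t^11 + 201344*m^2*t^12 + 28928*m*t^13 + 1920*t^14

theorem c_0_4_nonneg (m t : ℝ) (hm : 0 < m) (ht : 0 ≤ t) : 0 ≤ c_0_4 m t := by unfold c_0_4; positivity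

noncomputable def c_0_5 (m t : ℝ) : ℝ := 768*m^12 + 8832*m^11*t + 46464*m^10*t^2 + 147840*m^9*t^3 + 316800*m^8*t^4 + 481536*m^7*t^5 + 532224*m^6*t^6 + 430848*m^5*t^7 + 253440*m^4*t^8 + 105600*m^3*t^9 + 29568*m^2*t^10 + 4992*m*t^11 + 384*t^12

theorem c_0_5_nonneg (m t : ℝ) (hm : 0 < m) (ht : 0 ≤ t) : 0 ≤ c_0_5 m t := by unfold c_0_5; positivity

noncomputable def c_1_0 (m t : ℝ) : ℝ := 9856*m^20 + 182816*m^19*t + 1609248*m^18*t^2 + 8938848*m^17*t^3 + 35141856*m^16*t^4 + 103945344*m^15*t^5 + 240041088*m^14*t^6 + 443205504*m^13*t^7 + 664569984*m^12*t^8 + 817339328*m^11*t^9 + 829107136*m^10*t^10 + 694993728*m^9*t^11 + 480627264*m^8*t^12 + 272759424*m^7*t^13 + 125801088*m^6*t^14 + 46433664*m^5*t^15 + 13395456*m^4*t^16 + 2911008*m^3*t^17 + 448288*m^2*t^18 + 43616*m*t^19 + 2016*t^20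

theorem c_1_0_nonneg (m t : ℝ) (hm : 0 < m) (ht : 0 ≤ t) : 0 ≤ c_1_0 m t := by unfold c_1_0; positivity

noncomputable def c_1_1 (m t : ℝ) : ℝ := 40064*m^18 + 661952*m^17*t + 5158848*m^16*t^2 + 25200160*m^15*t^3 + 86472160*m^14*t^4 + 221370912*m^13*t^5 + 438235616*m^12*t^6 + 686070944*m^11*t^7 + 861226080*m^10*t^8 + 873535520*m^9*t^9 + 717777632*m^8*t^10 + 476782176*m^7*t^11 + 254179744*m^6*t^12 + 107306080*m^5*t^13 + 35091360*m^4*t^14 + 8578784*m^3*t^15 + 1476512*m^2*t^16 + 159648*m*t^17 + 8160*t^18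

theorem c_1_1_nonneg (m t : ℝ) (hm : 0 < m) (ht : 0 ≤ t) : 0 ≤ c_1_1 m t := by unfold c_1_1; positivity

noncomputable def c_1_2 (m t : ℝ) : ℝ := 61248*m^16 + 888096*m^15*t + 6027744*m^14*t^2 + 25424256*m^13*t^3 + 74602944*m^12*t^4 + 161522400*m^11*t^5 + 266995872*m^10*t^6 + 343831488*m^9*t^7 + 348746112*m^8*t^8 + 279653088*m^7*t^9 + 176775456*m^6*t^10 + 87200256*m^5*t^11 + 32919744*m^4*t^12 + 9197856*m^3*t^13 + 1794144*m^2*t^14 + 218304*m*t^15 + 12480*t^16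

theorem c_1_2_nonneg (m t : ℝ) (hm : 0 < m) (ht : 0 ≤ t) : 0 ≤ c_1_2 m t := by unfold c_1_2; positivity

noncomputable def c_1_3 (m t : ℝ) : ℝ := 41920*m^14 + 523424*m^13*t + 3029088*m^12*t^2 + 10771744*m^11*t^3 + 26306720*m^10*t^4 + 46696320*m^9*t^5 + 62164608*m^8*t^6 + 63091776*m^7*t^7 + 49091328*m^6*t^8 + 29164960*m^5*t^9 + 13032800*m^4*t^10 + 4250784*m^3*t^11 + 957088*m^2*t^12 + 133184*m*t^13 + 8640*t^14

theorem c_1_3_nonneg (m t : ℝ) (hm : 0 < m) (ht : 0 ≤ t) : 0 ≤ c_1_3 m t := by unfold c_1_3; positivity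

noncomputable def c_1_4 (m t : ℝ) : ℝ := 11072*m^12 + 116288*m^11*t + 558720*m^10*t^2 + 1624800*m^9*t^3 + 3187680*m^8*t^4 + 4449024*m^7*t^5 + 4534656*m^6*t^6 + 3405120*m^5*t^7 + 1872000*m^4*t^8 + 735680*m^3*t^9 + 196352*m^2*t^10 + 31968*m*t^11 + 2400*t^12

theorem c_1_4_nonneg (m t : ℝ) (hm : 0 < m) (ht : 0 ≤ t) : 0 ≤ c_1_4 m t := by unfold c_1_4; positivity

noncomputable def c_1_5 (m t : ℝ) : ℝ := 192*m^10 + 1824*m^9*t + 7776*m^8*t^2 + 19584*m^7*t^3 + 32256*m^6*t^4 + 36288*m^5*t^5 + 28224*m^4*t^6 + 14976*m^3*t^7 + 5184*m^2*t^8 + 1056*m*t^9 + 96*t^10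

theorem c_1_5_nonneg (m t : ℝ) (hm : 0 < m) (ht : 0 ≤ t) : 0 ≤ c_1_5 m t := by unfold c_1_5; positivity

noncomputable def c_2_0 (m t : ℝ) : ℝ := 36952*m^18 + 562384*m^17*t + 4065472*m^16*t^2 + 18565224*m^15*t^3 + 60054448*m^14*t^4 + 146183544*m^13*t^5 + 277507520*m^12*t^6 + 419939880*m^11*t^7 + 513199808*m^10*t^8 + 509834776*m^9*t^9 + 412294432*m^8*t^10 + 270479608*m^7*t^11 + 142738704*m^6*t^12 + 59720104*m^5*t^13 + 19360128*m^4*t^14 + 4690040*m^3*t^15 + 799272*m^2*t^16 + 85496*m*t^17 + 4320*t^18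

theorem c_2_0_nonneg (m t : ℝ) (hm : 0 < m) (ht : 0 ≤ t) : 0 ≤ c_2_0 m t := by unfold c_2_0; positivity

noncomputable def c_2_1 (m t : ℝ) : ℝ := 125200*m^16 + 1625736*m^15*t + 9975416*m^14*t^2 + 38470480*m^13*t^3 + 104535104*m^12*t^4 + 212418456*m^11*t^5 + 333947912*m^10*t^6 + 414055872*m^9*t^7 + 408636240*m^8*t^8 + 321500728*m^7*t^9 + 200589192*m^6*t^10 + 98022416*m^5*t^11 + 36722656*m^4*t^12 + 10184360*m^3*t^13 + 1970424*m^2*t^14 + 237536*m*t^15 + 13440*t^16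

theorem c_2_1_nonneg (m t : ℝ) (hm : 0 < m) (ht : 0 ≤ t) : 0 ≤ c_2_1 m t := by unfold c_2_1; positivity

noncomputable def c_2_2 (m t : ℝ) : ℝ := 142816*m^14 + 1536952*m^13*t + 7765768*m^12*t^2 + 24528024*m^11*t^3 + 54305016*m^10*t^4 + 89347776*m^9*t^5 + 112669200*m^8*t^6 + 110410800*m^7*t^7 + 84208464*m^6*t^8 + 49545016*m^5*t^9 + 22053160*m^4*t^10 + 7179448*m^3*t^11 + 1612632*m^2*t^12 + 223440*m*t^13 + 14400*t^14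

theorem c_2_2_nonneg (m t : ℝ) (hm : 0 < m) (ht : 0 ≤ t) : 0 ≤ c_2_2 m t := by unfold c_2_2; positivity

noncomputable def c_2_3 (m t : ℝ) : ℝ := 57840*m^12 + 490520*m^11*t + 1935848*m^10*t^2 + 4758208*m^9*t^3 + 8203072*m^8*t^4 + 10515408*m^7*t^5 + 10265456*m^6*t^6 + 7629728*m^5*t^7 + 4237968*m^4*t^8 + 1697752*m^3*t^9 + 461928*m^2*t^10 + 76256*m*t^11 + 5760*t^12

theorem c_2_3_nonneg (m t : ℝ) (hm : 0 < m) (ht : 0 ≤ t) : 0 ≤ c_2_3 m t := by unfold c_2_3; positivity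

noncomputable def c_2_4 (m t : ℝ) : ℝ := 3272*m^10 + 16920*m^9*t + 35736*m^8*t^2 + 42768*m^7*t^3 + 43416*m^6*t^4 + 54672*m^5*t^5 + 62280*m^4*t^6 + 46416*m^3*t^7 + 20448*m^2*t^8 + 4856*m*t^9 + 480*t^10

theorem c_2_4_nonneg (m t : ℝ) (hm : 0 < m) (ht : 0 ≤ t) : 0 ≤ c_2_4 m t := by unfold c_2_4; positivity

noncomputable def c_3_0 (m t : ℝ) : ℝ := 52128*m^16 + 700176*m^15*t + 4382208*m^14*t^2 + 17002976*m^13*t^3 + 45893120*m^12*t^4 + 91627600*m^11*t^5 + 140384032*m^10*t^6 + 168827616*m^9*t^7 + 161431392*m^8*t^8 + 123326640*m^7*t^9 + 75064896*m^6*t^10 + 36001056*m^5*t^11 + 13318208*m^4*t^12 + 3666416*m^3*t^13 + 706720*m^2*t^14 + 85024*m*t^15 + 4800*t^16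

theorem c_3_0_nonneg (m t : ℝ) (hm : 0 < m) (ht : 0 ≤ t) : 0 ≤ c_3_0 m t := by unfold c_3_0; positivity

noncomputable def c_3_1 (m t : ℝ) : ℝ := 121616*m^14 + 1408440*m^13*t + 7433832*m^12*t^2 + 23827848*m^11*t^3 + 52121608*m^10*t^4 + 82854448*m^9*t^5 + 99425840*m^8*t^6 + 92158768*m^7*t^7 + 66699008*m^6*t^8 + 37633848*m^5*t^9 + 16294952*m^4*t^10 + 5233480*m^3*t^11 + 1172456*m^2*t^12 + 163040*m*t^13 + 10560*t^14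

theorem c_3_1_nonneg (m t : ℝ) (hm : 0 < m) (ht : 0 ≤ t) : 0 ≤ c_3_1 m t := by unfold c_3_1; positivity

noncomputable def c_3_2 (m t : ℝ) : ℝ := 70400*m^12 + 737568*m^11*t + 3285360*m^10*t^2 + 8430560*m^9*t^3 + 14147520*m^8*t^4 + 16690272*m^7*t^5 + 14535808*m^6*t^6 + 9653760*m^5*t^7 + 4939200*m^4*t^8 + 1902400*m^3*t^9 + 516432*m^2*t^10 + 86880*m*t^11 + 6720*t^12

theorem c_3_2_nonneg (m t : ℝ) (hm : 0 < m) (ht : 0 ≤ t) : 0 ≤ c_3_2 m t := by unfold c_3_2; positivity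

noncomputable def c_3_3 (m t : ℝ) : ℝ := 912*m^10 + 62200*m^9*t + 281032*m^8*t^2 + 540600*m^7*t^3 + 567816*m^6*t^4 + 369800*m^5*t^5 + 179672*m^4*t^6 + 83240*m^3*t^7 + 34312*m^2*t^8 + 8864*m*t^9 + 960*t^10

theorem c_3_3_nonneg (m t : ℝ) (hm : 0 < m) (ht : 0 ≤ t) : 0 ≤ c_3_3 m t := by unfold c_3_3; positivity

noncomputable def c_4_0 (m t : ℝ) : ℝ := 61920*m^14 + 693384*m^13*t + 3490208*m^12*t^2 + 10608184*m^11*t^3 + 21948848*m^10*t^4 + 32925024*m^9*t^5 + 37143552*m^8*t^6 + 32209008*m^7*t^7 + 21730368*m^6*t^8 + 11445960*m^5*t^9 + 4670112*m^4*t^10 + 1438040*m^3*t^11 + 315568*m^2*t^12 + 43856*m*t^13 + 2880*t^14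

theorem c_4_0_nonneg (m t : ℝ) (hm : 0 < m) (ht : 0 ≤ t) : 0 ≤ c_4_0 m t := by unfold c_4_0; positivity

noncomputable def c_4_1 (m t : ℝ) : ℝ := 96144*m^12 + 954184*m^11*t + 3903784*m^10*t^2 + 9202560*m^9*t^3 + 14264000*m^8*t^4 + 15501872*m^7*t^5 + 12237488*m^6*t^6 + 7194144*m^5*t^7 + 3220720*m^4*t^8 + 1109960*m^3*t^9 + 284648*m^2*t^10 + 47904*m*t^11 + 3840*t^12

theorem c_4_1_nonneg (m t : ℝ) (hm : 0 < m) (ht : 0 ≤ t) : 0 ≤ c_4_1 m t := by unfold c_4_1; positivity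

noncomputable def c_4_2 (m t : ℝ) : ℝ := 11888*m^10 + 252032*m^9*t + 850536*m^8*t^2 + 1434304*m^7*t^3 + 1455064*m^6*t^4 + 927408*m^5*t^5 + 379832*m^4*t^6 + 112832*m^3*t^7 + 32088*m^2*t^8 + 8016*m*t^9 + 960*t^10

theorem c_4_2_nonneg (m t : ℝ) (hm : 0 < m) (ht : 0 ≤ t) : 0 ≤ c_4_2 m t := by unfold c_4_2; positivity

noncomputable def c_5_0 (m t : ℝ) : ℝ := 77504*m^12 + 502720*m^11*t + 1625184*m^10*t^2 + 3401312*m^9*t^3 + 4981824*m^8*t^4 + 5242784*m^7*t^5 + 4001184*m^6*t^6 + 2222816*m^5*t^7 + 905248*m^4*t^8 + 275232*m^3*t^9 + 63360*m^2*t^10 + 10304*m*t^11 + 864*t^12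

theorem c_5_0_nonneg (m t : ℝ) (hm : 0 < m) (ht : 0 ≤ t) : 0 ≤ c_5_0 m t := by unfold c_5_0; positivity

noncomputable def c_5_1 (m t : ℝ) : ℝ := 117264*m^10 + 427288*m^9*t + 885432*m^8*t^2 + 1259192*m^7*t^3 + 1232984*m^6*t^4 + 803304*m^5*t^5 + 332968*m^4*t^6 + 86728*m^3*t^7 + 17112*m^2*t^8 + 3584*m*t^9 + 480*t^10

theorem c_5_1_nonneg (m t : ℝ) (hm : 0 < m) (ht : 0 ≤ t) : 0 ≤ c_5_1 m t := by unfold c_5_1; positivity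

noncomputable def c_6_0 (m t : ℝ) : ℝ := 1832*m^10 + 33432*m^9*t + 138208*m^8*t^2 + 274336*m^7*t^3 + 316144*m^6*t^4 + 225008*m^5*t^5 + 98752*m^4*t^6 + 25696*m^3*t^7 + 4072*m^2*t^8 + 632*m*t^9 + 96*t^10

theorem c_6_0_nonneg (m t : ℝ) (hm : 0 < m) (ht : 0 ≤ t) : 0 ≤ c_6_0 m t := by unfold c_6_0; positivity

theorem numQ_nonneg (m t K u r : ℝ) (hm : 0 < m) (ht : 0 ≤ t) (hK : 0 ≤ K) (hu : 0 ≤ u) (hr : 2*m*r = (m+t)^2+K+u) : 0 ≤ numQ m (m+t) r K := by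
  have h1 : (2*m)^5 * numQ m (m+t) r K = q0 m (m+t) K*(2*m)^5*(2*m*r)^0 + q1 m (m+t) K*(2*m)^4*(2*m*r)^1 + q2 m (m+t) K*(2*m)^3*(2*m*r)^2 + q3 m (m+t) K*(2*m)^2*(2*m*r)^3 + q4 m (m+t) K*(2*m)^1*(2*m*r)^4 + q5 m (m+t) K*(2*m)^0*(2*m*r)^5 := by
    unfold numQ; ring
  rw [hr] at h1
  have h2 : (2*m)^5 * numQ m (m+t) r K = c_0_0 m t * K^0 * u^0 + c_0_1 m t * K^0 * u^1 + c_0_2 m t * K^0 * u^2 + c_0_3 m t * K^0 * u^3 + c_0_4 m t * K^0 * u^4 + c_0_5 m t * K^0 * u^5 + c_1_0 m t * K^1 * u^0 + c_1_1 m t * K^1 * u^1 + c_1_2 m t * K^1 * u^2 + c_1_3 m t * K^1 * u^3 + c_1_4 m t * K^1 * u^4 + c_1_5 m t * K^1 * u^5 + c_2_0 m t * K^2 * u^0 + c_2_1 m t * K^2 * u^1 + c_2_2 m t * K^2 * u^2 + c_2_3 m t * K^2 * u^3 + c_2_4 m t * K^2 * u^4 + c_3_0 m t * K^3 * u^0 + c_3_1 m t * K^3 * u^1 + c_3_2 m t * K^3 * u^2 + c_3_3 m t * K^3 * u^3 + c_4_0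 m t * K^4 * u^0 + c_4_1 m t * K^4 * u^1 + c_4_2 m t * K^4 * u^2 + c_5_0 m t * K^5 * u^0 + c_5_1 m t * K^5 * u^1 + c_6_0 m t * K^6 * u^0 := by
    rw [h1]; simp only [q0, q1, q2, q3, q4, q5, c_0_0, c_0_1, c_0_2, c_0_3, c_0_4, c_0_5, c_1_0, c_1_1, c_1_2, c_1_3, c_1_4, c_1_5, c_2_0, c_2_1, c_2_2, c_2_3, c_2_4, c_3_0, c_3_1, c_3_2, c_3_3, c_4_0, c_4_1, c_4_2, c_5_0, c_5_1, c_6_0]; ring
  have n_0_0 := c_0_0_nonneg m t hm ht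
  have n_0_1 := c_0_1_nonneg m t hm ht
  have n_0_2 := c_0_2_nonneg m t hm ht
  have n_0_3 := c_0_3_nonneg m t hm ht
  have n_0_4 := c_0_4_nonneg m t hm ht
  have n_0_5 := c_0_5_nonneg m t hm ht
  have n_1_0 := c_1_0_nonneg m t hm ht
  have n_1_1 := c_1_1_nonneg m t hm ht
  have n_1_2 := c_1_2_nonneg m t hm ht
  have n_1_3 := c_1_3_nonneg m t hm ht
  have n_1_4 := c_1_4_nonneg m t hm ht
  have n_1_5 := c_1_5_nonneg m t hm ht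
  have n_2_0 := c_2_0_nonneg m t hm ht
  have n_2_1 := c_2_1_nonneg m t hm ht
  have n_2_2 := c_2_2_nonneg m t hm ht
  have n_2_3 := c_2_3_nonneg m t hm ht
  have n_2_4 := c_2_4_nonneg m t hm ht
  have n_3_0 := c_3_0_nonneg m t hm ht
  have n_3_1 := c_3_1_nonneg m t hm ht
  have n_3_2 := c_3_2_nonneg m t hm ht
  have n_3_3 := c_3_3_nonneg m t hm ht
  have n_4_0 := c_4_0_nonneg m t hm ht
  have n_4_1 := c_4_1_nonneg m t hm ht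
  have n_4_2 := c_4_2_nonneg m t hm ht
  have n_5_0 := c_5_0_nonneg m t hm ht
  have n_5_1 := c_5_1_nonneg m t hm ht
  have n_6_0 := c_6_0_nonneg m t hm ht
  have h3 : 0 ≤ (2*m)^5 * numQ m (m+t) r K := by rw [h2]; positivity
  exact nonneg_of_mul_nonneg_right h3 (by positivity)


theorem det_factor (m d r K : ℝ) : 4*numX m d r K*numY m d r K - (numW m d r K)^2 = (d+m)*numQ m d r K := by
  unfold numX numY numW numQ q0 q1 q2 q3 q4 q5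
  ring

end Pool.Agent.Helper131.FS
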