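import Pool.Agent.Helper131.FS.PosXY
import Pool.Agent.Helper131.FS.PosQ

namespace Pool.Agent.Helper131.FS

theorem coef_nonneg (r K d m : ℝ) (hr : 0 < r) (hK : 0 ≤ K) (hm : 0 < m) (hmd : m ≤ d)
    (h : d^2 + K ≤ 2*r*m) :
    0 ≤ -fAd r K d m / d ∧ 0 ≤ fBm r K d m ∧
    (fAm r K d m - fBd r K d m / d)^2 ≤ 4*(-fAd r K d m / d)*fBm r K d m := by
  have hd : 0 < d := lt_of_lt_of_le hm hmd
  obtain ⟨t, ht, rfl⟩ : ∃ t, 0 ≤ t ∧ d = m + t := ⟨d - m, by linarith, by ring⟩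
  obtain ⟨u, hu, hr'⟩ : ∃ u, 0 ≤ u ∧ 2*m*r = (m+t)^2+K+u := ⟨2*r*m - ((m+t)^2+K), by linarith, by ring⟩
  have hX := numX_nonneg m t K u r hm ht hK hu hr'
  have hY := numY_nonneg m t K u r hm ht hK hu hr'
  have hQ := numQ_nonneg m t K u r hm ht hK hu hr'
  have hdet := det_factor m (m+t) r K
  have hW : (numW m (m+t) r K)^2 ≤ 4*numX m (m+t) r K*numY m (m+t) r K := by
    have : 0 ≤ (m + t + m) * numQ m (m+t) r K := mul_nonneg (by linarith) hQ
    linarith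
  generalize hD : m + t = D at *
  have hs : 0 < D + m := by linarith
  have e1 : -fAd r K D m / D = numX m D r K / (4*r^2*(D+m)^2*D^10) := by
    unfold fAd; field_simp
  have e2 : fAm r K D m - fBd r K D m / D = numW m D r K / (4*r^2*(D+m)^2*D^8) := by
    unfold fAm; ring
  have e3 : fBm r K D m = numY m D r K / (4*r^2*(D+m)^2*D^6) := rfl
  rw [e1, e2, e3]
  refine ⟨by positivity, by positivity, ?_⟩
  rw [div_pow]
  have e4 : 4*(numX m D r K / (4*r^2*(D+m)^2*D^10)) * (numY m D r K / (4*r^2*(D+m)^2*D^6))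
      = (4*numX m D r K*numY m D r K) / (4*r^2*(D+m)^2*D^8)^2 := by
    field_simp
  rw [e4]
  exact div_le_div_of_nonneg_right hW (by positivity)

theorem bracket (r K d m : ℝ) (hr : 0 < r) (hd : 0 < d) (hm : 0 < m) :
    3 * fA r K d m + d * fAd r K d m + m * fAm r K d m - m * fBd r K d m / d - fBm r K d m = 0 := by
  have hs : d + m ≠ 0 := by positivity
  unfold fA fAd fAm fBm numX numY numW
  field_simp
  ring

theorem boundary_id (r d : ℝ) (hr : 1 < r) (hd : 0 < d) :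
    fA r (r^2-1) d ((d^2+(r^2-1))/(2*r)) * (1 - r*(r-(d^2+(r^2-1))/(2*r)))
     + fB r (r^2-1) d ((d^2+(r^2-1))/(2*r)) * (r-(d^2+(r^2-1))/(2*r)) = 1 - ((r^2-1)/d^2)^2 := by
  have h0 : r ≠ 0 := by positivity
  have h1 : d ≠ 0 := by positivity
  have h2 : ((d+r)^2-1) ≠ 0 := by nlinarith
  have e : d + (d^2+(r^2-1))/(2*r) = ((d+r)^2-1)/(2*r) := by field_simp; ring
  unfold fA fB
  rw [e]
  field_simp
  ring

end Pool.Agent.Helper131.FS
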