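import Pool.Agent.Helper131.FS.Base

namespace Pool.Agent.Helper131.FS

open MeasureTheory Set Filter Topology
open scoped ContDiff RealInnerProductSpace

/-- inversion in the sphere of centre `y` orthogonal to the unit sphere -/
noncomputable def refl (n : ℕ) (y x : E n) : E n := y + ((‖y‖^2-1)/‖x - y‖^2) • (x - y)

/-- conformal diffeomorphisms of the closed unit ball: `A` or `A ∘ refl y`, `A` orthogonal, `|y|>1` -/
def IsConformal (n : ℕ) (f : E n → E n) : Prop :=
  ∃ A : E n ≃ₗᵢ[ℝ] E n, (f = fun x => A x) ∨ ∃ y : E n, 1 < ‖y‖ ∧ f = fun x => A (refl n y x)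

end Pool.Agent.Helper131.FS
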