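import Pool.Agent.Helper131.FS.Base

namespace Pool.Agent.Helper131.FS

open MeasureTheory Set Filter Topology
open scoped ContDiff RealInnerProductSpace

/-- the calibrating vector field -/
noncomputable def U (n : ℕ) (y : E n) (x : E n) : E n :=
  fA ‖y‖ (‖y‖^2-1) ‖x - y‖ (‖y‖ - ⟪(1/‖y‖) • y, x⟫) • (x - y)
    + fB ‖y‖ (‖y‖^2-1) ‖x - y‖ (‖y‖ - ⟪(1/‖y‖) • y, x⟫) • ((1/‖y‖) • y)

end Pool.Agent.Helper131.FS
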