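import Pool.Agent.Helper131.FS.Base
import Pool.Agent.Helper131.FS.DefsR

set_option maxRecDepth 100000

namespace Pool.Agent.Helper131.FS

open MeasureTheory Set Filter Topology
open scoped ContDiff RealInnerProductSpace

theorem dist_refl (n : ℕ) (A : E n ≃ₗᵢ[ℝ] E n) (y x z : E n) (hy : 1 < ‖y‖) (hx : x ≠ y) (hz : z ≠ y) :
    dist (A (refl n y x)) (A (refl n y z)) ^ 2 =
      ((‖y‖^2-1)/‖x - y‖^2) * ((‖y‖^2-1)/‖z - y‖^2) * dist x z ^ 2 := by
  rw [A.dist_map, dist_eq_norm, dist_eq_norm]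
  have hxz : x - z = (x - y) - (z - y) := by abel
  rw [hxz, refl, refl, add_sub_add_left_eq_sub]
  have ha : ‖x - y‖ ≠ 0 := norm_ne_zero_iff.2 (sub_ne_zero.2 hx)
  have hb : ‖z - y‖ ≠ 0 := norm_ne_zero_iff.2 (sub_ne_zero.2 hz)
  generalize x - y = a at *
  generalize z - y = b at *
  generalize ‖y‖ ^ 2 - 1 = c at *
  rw [norm_sub_sq_real, norm_sub_sq_real, norm_smul, norm_smul, real_inner_smul_left,
    real_inner_smul_right, Real.norm_eq_abs, Real.norm_eq_abs, mul_pow, mul_pow, sq_abs, sq_abs]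
  field_simp
  ring

end Pool.Agent.Helper131.FS
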