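import Pool.Agent.Helper131.FS.Base

set_option maxRecDepth 100000

namespace Pool.Agent.Helper131.FS

open MeasureTheory Set Filter Topology
open scoped ContDiff RealInnerProductSpace

theorem hausdorff_le_aux833_hausdorff_le (n : ℕ) (f : E n → E n) (lam : E n → ℝ) (Γ : Set (E n))
    (hΓ : MeasurableSet Γ)
    (hm : Measurable lam) (hpos : ∀ x ∈ Γ, 0 < lam x)
    (hf : ∀ x ∈ Γ, ∀ z ∈ Γ, dist (f x) (f z) ^ 2 = lam x * lam z * dist x z ^ 2)
    (q : ℝ) (hq : 1 < q) :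
    Measure.hausdorffMeasure 2 (f '' Γ) ≤ ENNReal.ofReal (q ^ 2) *
      ∫⁻ x in Γ, ENNReal.ofReal (lam x ^ 2) ∂(Measure.hausdorffMeasure 2) := by
  have hq0 : 0 < q := by linarith
  obtain ⟨G, hG⟩ : ∃ G : ℤ → Set (E n), G = fun j => Γ ∩ lam ⁻¹' Set.Ico (q ^ j) (q ^ (j + 1)) :=
    ⟨_, rfl⟩
  have hGm : ∀ j, MeasurableSet (G j) := by
    intro j; rw [hG]; exact hΓ.inter (hm measurableSet_Ico)
  have hGd : Pairwise (Function.onFun Disjoint G) := by
    have key : ∀ i j : ℤ, i < j → Disjoint (G i) (G j) := by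
      intro i j hij
      rw [Set.disjoint_left]
      intro x hx hx'
      rw [hG] at hx hx'
      have h1 : lam x < q ^ (i + 1) := hx.2.2
      have h2 : q ^ j ≤ lam x := hx'.2.1
      have h3 : q ^ (i + 1) ≤ q ^ j := zpow_le_zpow_right₀ hq.le (by omega)
      linarith
    intro i j hij
    rcases lt_or_gt_of_ne hij with h | h
    · exact key i j h
    · exact (key j i h).symm
  have hGu : ⋃ j, G j = Γ := by
    apply Set.Subset.antisymm
    · apply Set.iUnion_subset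
      intro j; rw [hG]; exact Set.inter_subset_left
    · intro x hx
      obtain ⟨j, hj⟩ := exists_mem_Ico_zpow (hpos x hx) hq
      rw [Set.mem_iUnion]
      exact ⟨j, by rw [hG]; exact ⟨hx, hj⟩⟩
  have hlip : ∀ j : ℤ, LipschitzOnWith (Real.toNNReal (q ^ (j + 1))) f (G j) := by
    intro j
    apply LipschitzOnWith.of_dist_le_mul
    intro x hx z hz
    rw [hG] at hx hz
    have hqj : 0 < q ^ (j + 1) := zpow_pos hq0 _
    rw [Real.coe_toNNReal _ hqj.le]
    have h1 : lam x ≤ q ^ (j + 1) := hx.2.2.le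
    have h2 : lam z ≤ q ^ (j + 1) := hz.2.2.le
    have h3 := hpos x hx.1
    have h4 := hpos z hz.1
    have h5 : dist (f x) (f z) ^ 2 ≤ (q ^ (j + 1) * dist x z) ^ 2 := by
      rw [hf x hx.1 z hz.1, mul_pow]
      apply mul_le_mul_of_nonneg_right ?_ (sq_nonneg _)
      calc lam x * lam z ≤ q ^ (j + 1) * q ^ (j + 1) := mul_le_mul h1 h2 h4.le hqj.le
        _ = (q ^ (j + 1)) ^ 2 := (sq _).symm
    exact (abs_le_of_sq_le_sq' h5 (by positivity)).2
  have hj : ∀ j : ℤ, Measure.hausdorffMeasure 2 (f '' (G j)) ≤ ENNReal.ofReal (q ^ 2) *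
      ∫⁻ x in G j, ENNReal.ofReal (lam x ^ 2) ∂(Measure.hausdorffMeasure 2) := by
    intro j
    have hqj : 0 < q ^ j := zpow_pos hq0 _
    have hqj1 : 0 < q ^ (j + 1) := zpow_pos hq0 _
    refine ((hlip j).hausdorffMeasure_image_le (by norm_num : (0 : ℝ) ≤ 2)).trans ?_
    have e1 : ((Real.toNNReal (q ^ (j + 1)) : NNReal) : ENNReal) ^ (2 : ℝ)
        = ENNReal.ofReal (q ^ 2) * ENNReal.ofReal ((q ^ j) ^ 2) := by
      rw [← ENNReal.ofReal_mul (by positivity), ENNReal.rpow_ofNat]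
      rw [show ((Real.toNNReal (q ^ (j + 1)) : NNReal) : ENNReal) = ENNReal.ofReal (q ^ (j + 1))
        from rfl, ← ENNReal.ofReal_pow hqj1.le]
      congr 1
      rw [zpow_add_one₀ hq0.ne']
      ring
    rw [e1, mul_assoc]
    gcongr
    calc ENNReal.ofReal ((q ^ j) ^ 2) * Measure.hausdorffMeasure 2 (G j)
        = ∫⁻ x in G j, ENNReal.ofReal ((q ^ j) ^ 2) ∂(Measure.hausdorffMeasure 2) := by
          rw [setLIntegral_const]
      _ ≤ ∫⁻ x in G j, ENNReal.ofReal (lam x ^ 2) ∂(Measure.hausdorffMeasure 2) := by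
          apply setLIntegral_mono' (hGm j)
          intro x hx
          rw [hG] at hx
          apply ENNReal.ofReal_le_ofReal
          exact pow_le_pow_left₀ hqj.le hx.2.1 2
  calc Measure.hausdorffMeasure 2 (f '' Γ) = Measure.hausdorffMeasure 2 (⋃ j, f '' (G j)) := by
        rw [← Set.image_iUnion, hGu]
    _ ≤ ∑' j, Measure.hausdorffMeasure 2 (f '' (G j)) := measure_iUnion_le _
    _ ≤ ∑' j, ENNReal.ofReal (q ^ 2) *
      ∫⁻ x in G j, ENNReal.ofReal (lam x ^ 2) ∂(Measure.hausdorffMeasure 2) :=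
        ENNReal.tsum_le_tsum hj
    _ = ENNReal.ofReal (q ^ 2) *
      ∫⁻ x in Γ, ENNReal.ofReal (lam x ^ 2) ∂(Measure.hausdorffMeasure 2) := by
        rw [ENNReal.tsum_mul_left, ← lintegral_iUnion hGm hGd, hGu]



theorem hausdorff_le (n : ℕ) (f : E n → E n) (lam : E n → ℝ) (Γ : Set (E n)) (hΓ : MeasurableSet Γ)
    (hm : Measurable lam) (hpos : ∀ x ∈ Γ, 0 < lam x)
    (hf : ∀ x ∈ Γ, ∀ z ∈ Γ, dist (f x) (f z) ^ 2 = lam x * lam z * dist x z ^ 2) :
    Measure.hausdorffMeasure 2 (f '' Γ) ≤ ∫⁻ x in Γ, ENNReal.ofReal (lam x ^ 2) ∂(Measure.hausdorffMeasure 2) := by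
  by_cases hR : ∫⁻ x in Γ, ENNReal.ofReal (lam x ^ 2) ∂(Measure.hausdorffMeasure 2) = ⊤
  · rw [hR]; exact le_top
  have ht : Tendsto (fun q : ℝ => ENNReal.ofReal (q ^ 2) *
      ∫⁻ x in Γ, ENNReal.ofReal (lam x ^ 2) ∂(Measure.hausdorffMeasure 2)) (𝓝[>] 1)
      (𝓝 (ENNReal.ofReal ((1 : ℝ) ^ 2) *
      ∫⁻ x in Γ, ENNReal.ofReal (lam x ^ 2) ∂(Measure.hausdorffMeasure 2))) := by
    apply ENNReal.Tendsto.mul_const ?_ (Or.inr hR)
    apply Tendsto.mono_left ?_ nhdsWithin_le_nhds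
    exact (ENNReal.continuous_ofReal.comp (continuous_pow 2)).tendsto 1
  rw [one_pow, ENNReal.ofReal_one, one_mul] at ht
  apply ge_of_tendsto ht
  filter_upwards [self_mem_nhdsWithin] with q hq
  exact hausdorff_le_aux833_hausdorff_le n f lam Γ hΓ hm hpos hf q hq

end Pool.Agent.Helper131.FS
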