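import Pool.Agent.Helper131.FS.Base
import Pool.Agent.Helper131.FS.DefsR
import Pool.Agent.Helper131.FS.L_dist_refl
import Pool.Agent.Helper131.FS.L_hausdorff_le

set_option maxRecDepth 100000

namespace Pool.Agent.Helper131.FS

open MeasureTheory Set Filter Topology
open scoped ContDiff RealInnerProductSpace

theorem hausdorff_final (n : ℕ) (A : E n ≃ₗᵢ[ℝ] E n) (y : E n) (hy : 1 < ‖y‖) (Γ : Set (E n))
    (hΓ : MeasurableSet Γ) (hs : ∀ x ∈ Γ, ‖x‖ = 1) (hfin : Measure.hausdorffMeasure 2 Γ ≠ ⊤)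
    (hI : ∫ x, ((‖y‖^2-1)/‖x - y‖^2)^2 ∂((Measure.hausdorffMeasure 2 : Measure (E n)).restrict Γ)
      ≤ ((Measure.hausdorffMeasure 2 : Measure (E n)).restrict Γ).real univ) :
    Measure.hausdorffMeasure 2 ((fun x => A (refl n y x)) '' Γ) ≤ Measure.hausdorffMeasure 2 Γ := by
  set μ : Measure (E n) := (Measure.hausdorffMeasure 2 : Measure (E n)).restrict Γ with hμ
  have hne : ∀ x ∈ Γ, x ≠ y := by
    rintro x hx rfl
    rw [hs x hx] at hy
    exact lt_irrefl _ hy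
  have hlow : ∀ x ∈ Γ, ‖y‖ - 1 ≤ ‖x - y‖ := by
    intro x hx
    have := norm_sub_norm_le y x
    rw [hs x hx, norm_sub_rev] at this
    exact this
  have hnum : 0 < ‖y‖ ^ 2 - 1 := by nlinarith
  have hm : Measurable (fun x : E n => (‖y‖^2-1)/‖x - y‖^2) := by fun_prop
  have h1 := hausdorff_le n (fun x => A (refl n y x)) (fun x => (‖y‖^2-1)/‖x - y‖^2) Γ hΓ hm
    (fun x hx => div_pos hnum (by
      have : 0 < ‖x - y‖ := norm_pos_iff.2 (sub_ne_zero.2 (hne x hx))
      positivity))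
    (fun x hx z hz => dist_refl n A y x z hy (hne x hx) (hne z hz))
  refine h1.trans ?_
  have hfinμ : IsFiniteMeasure μ := ⟨by
    rw [hμ, Measure.restrict_apply_univ]
    exact lt_top_iff_ne_top.2 hfin⟩
  have hint : Integrable (fun x : E n => ((‖y‖^2-1)/‖x - y‖^2)^2) μ := by
    refine Integrable.of_bound (hm.pow_const 2).aestronglyMeasurable
      (((‖y‖^2-1)/(‖y‖-1)^2)^2) ?_
    rw [hμ, ae_restrict_iff' hΓ]
    refine Eventually.of_forall fun x hx => ?_
    rw [Real.norm_of_nonneg (by positivity)]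
    have h2 := hlow x hx
    have h3 : 0 < ‖y‖ - 1 := by linarith
    have h4 : (‖y‖ ^ 2 - 1) / ‖x - y‖ ^ 2 ≤ (‖y‖ ^ 2 - 1) / (‖y‖ - 1) ^ 2 := by
      apply div_le_div_of_nonneg_left hnum.le (by positivity)
      exact pow_le_pow_left₀ h3.le h2 2
    have h5 : 0 ≤ (‖y‖ ^ 2 - 1) / ‖x - y‖ ^ 2 := by positivity
    exact pow_le_pow_left₀ h5 h4 2
  rw [← hμ, ← ofReal_integral_eq_lintegral_ofReal hint
    (Eventually.of_forall fun x => by positivity)]
  refine (ENNReal.ofReal_le_ofReal hI).trans (le_of_eq ?_)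
  rw [measureReal_def, ENNReal.ofReal_toReal (measure_ne_top _ _), hμ, Measure.restrict_apply_univ]

end Pool.Agent.Helper131.FS
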