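import Pool.Agent.Helper131.FS.Base
import Pool.Agent.Helper131.FS.DefsR

set_option maxRecDepth 100000

namespace Pool.Agent.Helper131.FS

open MeasureTheory Set Filter Topology
open scoped ContDiff RealInnerProductSpace

theorem norm_fderiv_refl (n : ℕ) (A : E n ≃ₗᵢ[ℝ] E n) (y x : E n) (hy : 1 < ‖y‖) (hxy : x ≠ y) :
    ‖fderiv ℝ (fun x => A (refl n y x)) x‖ ≤ (‖y‖^2-1)/‖x - y‖^2 := by
  have hR : 0 ≤ ‖y‖ ^ 2 - 1 := by nlinarith
  have e : refl n y = EuclideanGeometry.inversion y (Real.sqrt (‖y‖ ^ 2 - 1)) := by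
    ext1 z
    unfold refl EuclideanGeometry.inversion
    rw [div_pow, Real.sq_sqrt hR, dist_eq_norm, vsub_eq_sub, vadd_eq_add, add_comm]
  have h1 := EuclideanGeometry.hasFDerivAt_inversion (c := y) (R := Real.sqrt (‖y‖ ^ 2 - 1)) hxy
  rw [← e] at h1
  have h2 : HasFDerivAt (fun x => A (refl n y x))
      ((A.toContinuousLinearEquiv : E n →L[ℝ] E n).comp
        ((Real.sqrt (‖y‖ ^ 2 - 1) / dist x y) ^ 2 •
          ((ℝ ∙ (x - y))ᗮ.reflection : E n →L[ℝ] E n))) x :=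
    ((A.toContinuousLinearEquiv : E n →L[ℝ] E n).hasFDerivAt).comp x h1
  rw [h2.fderiv]
  have hc : (Real.sqrt (‖y‖ ^ 2 - 1) / dist x y) ^ 2 = (‖y‖ ^ 2 - 1) / ‖x - y‖ ^ 2 := by
    rw [div_pow, Real.sq_sqrt hR, dist_eq_norm]
  rw [hc]
  refine ContinuousLinearMap.opNorm_le_bound _ (div_nonneg hR (sq_nonneg _)) fun v => ?_
  simp only [ContinuousLinearMap.comp_apply, ContinuousLinearMap.smul_apply, map_smul, norm_smul]
  rw [Real.norm_of_nonneg (div_nonneg hR (sq_nonneg _))]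
  refine mul_le_mul_of_nonneg_left (le_of_eq ?_) (div_nonneg hR (sq_nonneg _))
  exact (A.norm_map _).trans (LinearIsometryEquiv.norm_map _ _)

end Pool.Agent.Helper131.FS
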