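import Pool.Agent.Helper131.FS.L_main_ineq
import Pool.Agent.Helper131.FS.L_norm_fderiv_refl
import Pool.Agent.Helper131.FS.L_hausdorff_final

namespace Pool.Agent.Helper131.FS

open MeasureTheory Set Filter Topology
open scoped ContDiff RealInnerProductSpace

theorem integrable_fac (n : ℕ) (σ : Measure (E n)) [IsFiniteMeasure σ] (hσ : ∀ᵐ x ∂σ, ‖x‖ = 1)
    (y : E n) (hy : 1 < ‖y‖) :
    Integrable (fun x => ((‖y‖^2-1)/‖x - y‖^2)^2) σ := by
  have hmeas : AEStronglyMeasurable (fun x => ((‖y‖^2-1)/‖x - y‖^2)^2) σ := by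
    apply Measurable.aestronglyMeasurable
    fun_prop
  refine Integrable.of_bound hmeas ((((‖y‖^2-1)/(‖y‖-1)^2))^2) ?_
  filter_upwards [hσ] with x hx
  have h1 : ‖y‖ - 1 ≤ ‖x - y‖ := by
    have := norm_sub_norm_le y x
    rw [norm_sub_rev] at this
    linarith
  have h2 : 0 < ‖y‖ - 1 := by linarith
  have h3 : 0 ≤ ‖y‖^2 - 1 := by nlinarith
  rw [Real.norm_of_nonneg (by positivity)]
  have h4 : (‖y‖^2-1)/‖x - y‖^2 ≤ (‖y‖^2-1)/(‖y‖-1)^2 := by
    apply div_le_div_of_nonneg_left h3 (by positivity)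
    exact pow_le_pow_left₀ h2.le h1 2
  exact pow_le_pow_left₀ (by positivity) h4 2

theorem final (n : ℕ) (S : FreeBoundaryMinimal n 3) (f : E n → E n) (hf : IsConformal n f) :
    (∫ x, ‖fderiv ℝ f x‖ ^ 2 ∂S.σ ≤ S.σ.real univ) ∧
    ∀ Γ : Set (E n), MeasurableSet Γ → (∀ x ∈ Γ, ‖x‖ = 1) →
      S.σ = (Measure.hausdorffMeasure 2 : Measure (E n)).restrict Γ →
      Measure.hausdorffMeasure 2 (f '' Γ) ≤ Measure.hausdorffMeasure 2 Γ := by
  haveI := S.finσ
  obtain ⟨A, hA | ⟨y, hy, hA⟩⟩ := hf
  · subst hA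
    refine ⟨?_, ?_⟩
    · have h1 : ∫ x, ‖fderiv ℝ (fun x => A x) x‖ ^ 2 ∂S.σ ≤ ∫ _x, (1 : ℝ) ∂S.σ := by
        apply integral_mono_of_nonneg
        · exact Filter.Eventually.of_forall (fun x => by positivity)
        · exact integrable_const _
        · refine Filter.Eventually.of_forall (fun x => ?_)
          have e : fderiv ℝ (fun x => A x) x = (A.toContinuousLinearEquiv : E n →L[ℝ] E n) :=
            (A.toContinuousLinearEquiv : E n →L[ℝ] E n).hasFDerivAt.fderiv
          have h2 : ‖fderiv ℝ (fun x => A x) x‖ ≤ 1 := by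
            rw [e]
            refine ContinuousLinearMap.opNorm_le_bound _ zero_le_one (fun v => ?_)
            simp
          have h3 := norm_nonneg (fderiv ℝ (fun x => A x) x)
          show ‖fderiv ℝ (fun x => A x) x‖ ^ 2 ≤ 1
          nlinarith
      simpa [Measure.real] using h1
    · intro Γ _ _ _
      have := A.isometry.hausdorffMeasure_image (d := 2) (Or.inl (by norm_num)) Γ
      exact this.le
  · subst hA
    have hI := main_ineq n S y hy
    refine ⟨?_, ?_⟩
    · refine le_trans ?_ hI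
      apply integral_mono_of_nonneg
      · exact Filter.Eventually.of_forall (fun x => by positivity)
      · exact integrable_fac n S.σ S.on_sphere y hy
      · filter_upwards [S.on_sphere] with x hx
        have hxy : x ≠ y := by
          rintro rfl
          linarith
        exact pow_le_pow_left₀ (norm_nonneg _) (norm_fderiv_refl n A y x hy hxy) 2
    · intro Γ hΓ hs hσ
      have hfin : Measure.hausdorffMeasure 2 Γ ≠ ⊤ := by
        have h1 : S.σ univ ≠ ⊤ := measure_ne_top _ _
        rw [hσ, Measure.restrict_apply_univ] at h1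
        exact h1
      rw [hσ] at hI
      exact hausdorff_final n A y hy Γ hΓ hs hfin hI

end Pool.Agent.Helper131.FS
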