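import Mathlib

namespace Pool.Agent.Helper131.FS.Weak

open MeasureTheory Set
open scoped ContDiff RealInnerProductSpace

section
variable {V : Type} [NormedAddCommGroup V] [InnerProductSpace ℝ V]

/-- `P` is the orthogonal projection onto a `k`-dimensional linear subspace. -/
def IsPlaneProj (k : ℕ) (P : V →L[ℝ] V) : Prop :=
  (∀ x, P (P x) = P x) ∧ (∀ x y, ⟪P x, y⟫ = ⟪x, P y⟫) ∧
    Module.finrank ℝ (LinearMap.range (P : V →ₗ[ℝ] V)) = k

/-- The divergence at `x` of the vector field `W` along the plane with projection `P`. -/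
noncomputable def divAlong (P : V →L[ℝ] V) (W : V → V) (x : V) : ℝ :=
  LinearMap.trace ℝ V ((P : V →ₗ[ℝ] V) ∘ₗ (fderiv ℝ W x : V →ₗ[ℝ] V))

/-- `W` is smooth in a neighbourhood of the closed unit ball. -/
def SmoothNearBall (W : V → V) : Prop := ∀ x, ‖x‖ ≤ 1 → ContDiffAt ℝ ∞ W x

/-- The inversion in the sphere with centre `y` orthogonal to the unit sphere (`|y| > 1`). -/
noncomputable def reflect (y x : V) : V := y + ((‖y‖ ^ 2 - 1) / ‖x - y‖ ^ 2) • (x - y)

/-- Conformal diffeomorphisms of the closed unit ball: an orthogonal map `A`, or `A ∘ reflect y`. -/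
def IsConformalDiffeo (f : V → V) : Prop :=
  ∃ A : V ≃ₗᵢ[ℝ] V, (∀ x, f x = A x) ∨ ∃ y : V, 1 < ‖y‖ ∧ ∀ x, f x = A (reflect y x)

end

section
variable {V : Type} [NormedAddCommGroup V] [InnerProductSpace ℝ V] [MeasurableSpace V]

/-- The measure `area` lives on pairs (point of the closed unit ball, `k`-plane). -/
def PlanesInBall (k : ℕ) (area : Measure (V × (V →L[ℝ] V))) : Prop :=
  ∀ᵐ q ∂area, ‖q.1‖ ≤ 1 ∧ IsPlaneProj k q.2

/-- The measure `bdry` lives on the unit sphere. -/
def OnUnitSphere (bdry : Measure V) : Prop := ∀ᵐ x ∂bdry, ‖x‖ = 1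

/-- The first variation identity of a minimal submanifold with free boundary: the integral of
the tangential divergence of `W` over `Σ` is the integral over `∂Σ` of `⟪W, x⟫`, as the outward
conormal at the boundary point `x` is `x`. -/
def FirstVariation (area : Measure (V × (V →L[ℝ] V))) (bdry : Measure V) : Prop :=
  ∀ W : V → V, SmoothNearBall W → ∫ q, divAlong q.2 W q.1 ∂area = ∫ x, ⟪W x, x⟫ ∂bdry

end

/-- A free boundary minimal submanifold of dimension `k` of the closed unit ball of `V`, in the
weak sense: `area` is the area measure on pairs (point, projection onto the tangent plane), `bdry`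
the boundary measure on the unit sphere, and the first variation identity holds with outward
conormal `x` at the boundary point `x`. -/
structure FreeBoundaryMinimal (V : Type) [NormedAddCommGroup V] [InnerProductSpace ℝ V]
    [MeasurableSpace V] (k : ℕ) where
  area : Measure (V × (V →L[ℝ] V))
  bdry : Measure V
  area_finite : IsFiniteMeasure area
  bdry_finite : IsFiniteMeasure bdry
  planes : PlanesInBall k area
  sphere : OnUnitSphere bdry
  first_variation : FirstVariation area bdry

section
variable {V : Type} [NormedAddCommGroup V] [InnerProductSpace ℝ V] [MeasurableSpace V] {k : ℕ}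

/-- `|∂Σ|` -/
noncomputable def FreeBoundaryMinimal.boundaryVolume (S : FreeBoundaryMinimal V k) : ℝ :=
  S.bdry.real univ

/-- `|f(∂Σ)|`, with multiplicity, for `f` conformal with factor `‖Df‖`: `∫ ‖Df‖^(k-1)`. -/
noncomputable def FreeBoundaryMinimal.imageBoundaryVolume (S : FreeBoundaryMinimal V k)
    (f : V → V) : ℝ := ∫ x, ‖fderiv ℝ f x‖ ^ (k - 1) ∂S.bdry

/-- The boundary is the measurable subset `Γ` of the unit sphere with its Hausdorff measure of
dimension `k - 1`. -/
def FreeBoundaryMinimal.BoundaryIs [BorelSpace V] (S : FreeBoundaryMinimal V k) (Γ : Set V) : Prop :=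
  MeasurableSet Γ ∧ (∀ x ∈ Γ, ‖x‖ = 1) ∧
    S.bdry = (Measure.hausdorffMeasure ((k : ℝ) - 1) : Measure V).restrict Γ

end

end Pool.Agent.Helper131.FS.Weak
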