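import Pool.Agent.Helper131.FS.Final
import Pool.Agent.Helper131.FS.Weak

namespace Pool.Agent.Helper131.FS

open MeasureTheory Set
open scoped ContDiff RealInnerProductSpace

/-- translation to the concrete structure -/
noncomputable def conv (n k : ℕ) (S : Weak.FreeBoundaryMinimal (EuclideanSpace ℝ (Fin n)) k) :
    FreeBoundaryMinimal n k where
  V := S.area
  σ := S.bdry
  finV := S.area_finite
  finσ := S.bdry_finite
  in_ball := by
    filter_upwards [S.planes] with q hq
    exact hq.1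
  plane := by
    filter_upwards [S.planes] with q hq
    exact hq.2
  on_sphere := S.sphere
  first_variation := S.first_variation

theorem final2 (n : ℕ) (S : Weak.FreeBoundaryMinimal (EuclideanSpace ℝ (Fin n)) 3)
    (f : EuclideanSpace ℝ (Fin n) → EuclideanSpace ℝ (Fin n)) (hf : Weak.IsConformalDiffeo f) :
    S.imageBoundaryVolume f ≤ S.boundaryVolume ∧
    ∀ Γ : Set (EuclideanSpace ℝ (Fin n)), S.BoundaryIs Γ →
      Measure.hausdorffMeasure 2 (f '' Γ) ≤ Measure.hausdorffMeasure 2 Γ := by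
  have hf' : IsConformal n f := by
    obtain ⟨A, h | ⟨y, hy, h⟩⟩ := hf
    · exact ⟨A, Or.inl (funext h)⟩
    · exact ⟨A, Or.inr ⟨y, hy, funext h⟩⟩
  obtain ⟨h1, h2⟩ := final n (conv n 3 S) f hf'
  refine ⟨h1, fun Γ hΓ => ?_⟩
  obtain ⟨a, b, c⟩ := hΓ
  refine h2 Γ a b ?_
  have e : ((3 : ℕ) : ℝ) - 1 = 2 := by norm_num
  rw [e] at c
  exact c

end Pool.Agent.Helper131.FS
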