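import Pool.Agent.Helper131.FS.Base

set_option maxRecDepth 100000

namespace Pool.Agent.Helper131.FS

open MeasureTheory Set Filter Topology
open scoped ContDiff RealInnerProductSpace

theorem geom (n : ℕ) (y : E n) (hy : 1 < ‖y‖) (x : E n) (hx : ‖x‖ ≤ 1) :
    0 < ‖y‖ - ⟪(1/‖y‖) • y, x⟫ ∧ ‖y‖ - ⟪(1/‖y‖) • y, x⟫ ≤ ‖x - y‖ ∧
    ‖x - y‖^2 + (‖y‖^2 - 1) ≤ 2*‖y‖*(‖y‖ - ⟪(1/‖y‖) • y, x⟫) ∧
    (‖x‖ = 1 → ‖x - y‖^2 + (‖y‖^2 - 1) = 2*‖y‖*(‖y‖ - ⟪(1/‖y‖) • y, x⟫)) := by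
  have hy0 : 0 < ‖y‖ := by linarith
  have e : ⟪(1/‖y‖) • y, x⟫ = ⟪y, x⟫ / ‖y‖ := by
    rw [real_inner_smul_left]; ring
  rw [e]
  have h1 : ⟪y, x⟫ ≤ ‖y‖ := by
    have := real_inner_le_norm y x
    nlinarith [norm_nonneg x]
  have h2 : ‖x - y‖ ^ 2 = ‖x‖ ^ 2 - 2 * ⟪y, x⟫ + ‖y‖ ^ 2 := by
    rw [norm_sub_sq_real, real_inner_comm]
  have h3 : 2 * ‖y‖ * (‖y‖ - ⟪y, x⟫ / ‖y‖) = 2 * ‖y‖ ^ 2 - 2 * ⟪y, x⟫ := by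
    field_simp
  refine ⟨?_, ?_, ?_, ?_⟩
  · have : ⟪y, x⟫ / ‖y‖ ≤ 1 := by rw [div_le_one hy0]; exact h1
    linarith
  · have h4 := real_inner_le_norm y (y - x)
    rw [inner_sub_right, real_inner_self_eq_norm_sq, norm_sub_rev y x] at h4
    have h5 : ‖y‖ - ⟪y, x⟫ / ‖y‖ = (‖y‖ ^ 2 - ⟪y, x⟫) / ‖y‖ := by
      field_simp
    rw [h5, div_le_iff₀ hy0]
    linarith
  · rw [h2, h3]
    nlinarith [norm_nonneg x]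
  · intro hx1
    rw [h2, h3, hx1]
    ring

end Pool.Agent.Helper131.FS
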