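import Pool.Agent.Helper131.FS.Base
import Pool.Agent.Helper131.FS.DefsU
import Pool.Agent.Helper131.FS.L_geom

set_option maxRecDepth 100000

namespace Pool.Agent.Helper131.FS

open MeasureTheory Set Filter Topology
open scoped ContDiff RealInnerProductSpace

theorem s_A_contDiffAt_U (n : ℕ) (r K : ℝ) (d m : E n → ℝ) (x : E n) (hd : ContDiffAt ℝ ∞ d x)
    (hm : ContDiffAt ℝ ∞ m x) (h1 : d x ≠ 0) (h2 : d x + m x ≠ 0) :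
    ContDiffAt ℝ ∞ (fun x => fA r K (d x) (m x)) x := by
  have p2 : d x ^ 2 ≠ 0 := pow_ne_zero _ h1
  have p3 : d x ^ 3 ≠ 0 := pow_ne_zero _ h1
  have p4 : d x ^ 4 ≠ 0 := pow_ne_zero _ h1
  have p5 : d x ^ 5 ≠ 0 := pow_ne_zero _ h1
  have p6 : d x ^ 6 ≠ 0 := pow_ne_zero _ h1
  have p8 : d x ^ 8 ≠ 0 := pow_ne_zero _ h1
  unfold fA
  fun_prop (disch := assumption)

theorem s_B_contDiffAt_U (n : ℕ) (r K : ℝ) (d m : E n → ℝ) (x : E n) (hd : ContDiffAt ℝ ∞ d x)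
    (hm : ContDiffAt ℝ ∞ m x) (h0 : r ≠ 0) (h1 : d x ≠ 0) (h2 : d x + m x ≠ 0) :
    ContDiffAt ℝ ∞ (fun x => fB r K (d x) (m x)) x := by
  have p2 : d x ^ 2 ≠ 0 := pow_ne_zero _ h1
  have p3 : d x ^ 3 ≠ 0 := pow_ne_zero _ h1
  have p4 : d x ^ 4 ≠ 0 := pow_ne_zero _ h1
  have p5 : d x ^ 5 ≠ 0 := pow_ne_zero _ h1
  have p6 : d x ^ 6 ≠ 0 := pow_ne_zero _ h1
  have p8 : d x ^ 8 ≠ 0 := pow_ne_zero _ h1
  have q3 : r * d x ^ 3 ≠ 0 := mul_ne_zero h0 p3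
  unfold fB
  fun_prop (disch := assumption)



theorem contDiffAt_U (n : ℕ) (y : E n) (hy : 1 < ‖y‖) (x : E n) (hx : ‖x‖ ≤ 1) :
    ContDiffAt ℝ ∞ (U n y) x := by
  obtain ⟨g1, g2, g3, g4⟩ := geom n y hy x hx
  have hd0' : 0 < ‖x - y‖ := by linarith
  have hd0 : ‖x - y‖ ≠ 0 := hd0'.ne'
  have hxy : x - y ≠ 0 := norm_ne_zero_iff.mp hd0
  have hd : ContDiffAt ℝ ∞ (fun x : E n => ‖x - y‖) x :=
    (contDiffAt_id.sub contDiffAt_const).norm ℝ hxy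
  have hm : ContDiffAt ℝ ∞ (fun x : E n => ‖y‖ - ⟪(1/‖y‖) • y, x⟫) x :=
    contDiffAt_const.sub (contDiffAt_const.inner ℝ contDiffAt_id)
  have h2 : ‖x - y‖ + (‖y‖ - ⟪(1/‖y‖) • y, x⟫) ≠ 0 := by
    have : 0 ≤ ‖x - y‖ := norm_nonneg _
    have : 0 < ‖x - y‖ + (‖y‖ - ⟪(1/‖y‖) • y, x⟫) := by linarith
    exact this.ne'
  have hy0 : ‖y‖ ≠ 0 := by
    have : 0 < ‖y‖ := by linarith
    exact this.ne'
  have hA := s_A_contDiffAt_U n ‖y‖ (‖y‖^2-1) _ _ x hd hm hd0 h2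
  have hB := s_B_contDiffAt_U n ‖y‖ (‖y‖^2-1) _ _ x hd hm hy0 hd0 h2
  unfold U
  exact (hA.smul (contDiffAt_id.sub contDiffAt_const)).add (hB.smul contDiffAt_const)

end Pool.Agent.Helper131.FS
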