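import Pool.Agent.Helper131.FS.Base

set_option maxRecDepth 100000

namespace Pool.Agent.Helper131.FS

open MeasureTheory Set Filter Topology
open scoped ContDiff RealInnerProductSpace

theorem fAd_eq_hasDerivAt_fA (r K D M : ℝ) (hr : 0 < r) (h0 : 0 < D) (h1 : 0 < M) :
    fAd r K D M =
    -(1/(D+M)^2) * (1/D + (2*r-5*K/(8*r))*(1/D^2+M/D^3) + K*(1/D^3+2*M/D^4)
        + (5/4)*K*(M/D^4+3*M^2/D^5-1/D^3) - (5*K^2/(8*r))*(1/D^4+3*M/D^5))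
    + (1/(D+M)) * (-1/D^2 + (2*r-5*K/(8*r))*(-2/D^3-3*M/D^4) + K*(-3/D^4-8*M/D^5)
        + (5/4)*K*(-4*M/D^5-15*M^2/D^6+3/D^4) - (5*K^2/(8*r))*(-4/D^5-15*M/D^6))
    + (K^2/(2*r))*(-48*M^3/D^9+12*M/D^7) - (K^2/(4*r^2))*(-24*M^2/D^7+4/D^5)
    - (K^3/(4*r^2))*(-48*M^2/D^9+6/D^7) := by
  have hDM : D + M ≠ 0 := by positivity
  have hD : D ≠ 0 := h0.ne'
  have hr' : r ≠ 0 := hr.ne'
  unfold fAd numX
  field_simp
  ring

theorem fAm_eq_hasDerivAt_fA (r K D M : ℝ) (hr : 0 < r) (h0 : 0 < D) (h1 : 0 < M) :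
    fAm r K D M =
    -(1/(D+M)^2) * (1/D + (2*r-5*K/(8*r))*(1/D^2+M/D^3) + K*(1/D^3+2*M/D^4)
        + (5/4)*K*(M/D^4+3*M^2/D^5-1/D^3) - (5*K^2/(8*r))*(1/D^4+3*M/D^5))
    + (1/(D+M)) * ((2*r-5*K/(8*r))*(1/D^3) + K*(2/D^4)
        + (5/4)*K*(1/D^4+6*M/D^5) - (5*K^2/(8*r))*(3/D^5))
    + (K^2/(2*r))*(18*M^2/D^8-2/D^6) - (K^2/(4*r^2))*(8*M/D^6)
    - (K^3/(4*r^2))*(12*M/D^8) := by
  have hDM : D + M ≠ 0 := by positivity
  have hD : D ≠ 0 := h0.ne'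
  have hr' : r ≠ 0 := hr.ne'
  unfold fAm numW fBd
  field_simp
  ring

theorem hasDerivAt_fA (r K : ℝ) (hr : 0 < r) (d m : ℝ → ℝ) (d' m' : ℝ) (hd : HasDerivAt d d' 0)
    (hm : HasDerivAt m m' 0) (h0 : 0 < d 0) (h1 : 0 < m 0) :
    HasDerivAt (fun τ => fA r K (d τ) (m τ))
      (fAd r K (d 0) (m 0) * d' + fAm r K (d 0) (m 0) * m') 0 := by
  have hDM : d 0 + m 0 ≠ 0 := by positivity
  have hD : d 0 ≠ 0 := h0.ne'
  have hw : HasDerivAt (fun τ => (d τ)⁻¹) (-d' / (d 0)^2) 0 := hd.inv hD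
  have hv : HasDerivAt (fun τ => (d τ + m τ)⁻¹) (-(d'+m') / (d 0 + m 0)^2) 0 := (hd.add hm).inv hDM
  have key := (((hv.mul ((((hw.add (((hw.pow 2).add (hm.mul (hw.pow 3))).const_mul (2*r-5*K/(8*r)))).add
    (((hw.pow 3).add ((hm.mul (hw.pow 4)).const_mul 2)).const_mul K)).add
    ((((hm.mul (hw.pow 4)).add (((hm.pow 2).mul (hw.pow 5)).const_mul 3)).sub (hw.pow 3)).const_mul ((5/4)*K))).sub
    (((hw.pow 4).add ((hm.mul (hw.pow 5)).const_mul 3)).const_mul (5*K^2/(8*r))))).add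
    (((((hm.pow 3).mul (hw.pow 8)).const_mul 6).sub ((hm.mul (hw.pow 6)).const_mul 2)).const_mul (K^2/(2*r)))).sub
    (((((hm.pow 2).mul (hw.pow 6)).const_mul 4).sub (hw.pow 4)).const_mul (K^2/(4*r^2)))).sub
    (((((hm.pow 2).mul (hw.pow 8)).const_mul 6).sub (hw.pow 6)).const_mul (K^3/(4*r^2)))
  rw [fAd_eq_hasDerivAt_fA r K (d 0) (m 0) hr h0 h1, fAm_eq_hasDerivAt_fA r K (d 0) (m 0) hr h0 h1]
  refine (key.congr_of_eventuallyEq (Filter.Eventually.of_forall fun τ => ?_)).congr_deriv ?_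
  · unfold fA
    simp only [Pi.add_apply, Pi.mul_apply, Pi.sub_apply, Pi.pow_apply]
    ring
  · simp only [Pi.add_apply, Pi.mul_apply, Pi.sub_apply, Pi.pow_apply]
    push_cast
    generalize d 0 = D at *
    generalize m 0 = M at *
    ring

end Pool.Agent.Helper131.FS
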