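import Pool.Agent.Helper131.FS.Base

set_option maxRecDepth 100000

namespace Pool.Agent.Helper131.FS

open MeasureTheory Set Filter Topology
open scoped ContDiff RealInnerProductSpace

theorem hasDerivAt_fB (r K : ℝ) (hr : 0 < r) (d m : ℝ → ℝ) (d' m' : ℝ) (hd : HasDerivAt d d' 0)
    (hm : HasDerivAt m m' 0) (h0 : 0 < d 0) (h1 : 0 < m 0) :
    HasDerivAt (fun τ => fB r K (d τ) (m τ))
      (fBd r K (d 0) (m 0) * d' + fBm r K (d 0) (m 0) * m') 0 := by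
  have hd0 : d 0 ≠ 0 := h0.ne'
  have hm0 : m 0 ≠ 0 := h1.ne'
  have hr0 : r ≠ 0 := hr.ne'
  have hdm : d 0 + m 0 ≠ 0 := by positivity
  -- inverse of d
  have hw : HasDerivAt (fun τ => (d τ)⁻¹) (-d' / (d 0) ^ 2) 0 := hd.inv hd0
  have hv : HasDerivAt (fun τ => (d τ + m τ)⁻¹) (-(d' + m') / (d 0 + m 0) ^ 2) 0 :=
    (hd.add hm).inv hdm
  have hw2 := hw.pow 2
  have hw3 := hw.pow 3
  have hw4 := hw.pow 4
  have hw6 := hw.pow 6
  have hm2 := hm.pow 2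
  have hA := ((hw2.const_mul K).add ((hm.mul hw3).const_mul (5/4*K))).sub
    (hw3.const_mul (5/4*K^2/r))
  have hA2 := hv.mul (hA.const_add (-1))
  have hB := (hm2.mul hw6).const_mul (K^2/r)
  have hC := (hm.mul hw4).const_mul (K^2/(4*r^2))
  have hD := (hm.mul hw6).const_mul (3*K^3/(4*r^2))
  have hE := ((hA2.add hB).sub hC).sub hD
  have hfun : (fun τ => fB r K (d τ) (m τ)) = fun τ => (d τ + m τ)⁻¹ * (-1 + (K * ((d τ)⁻¹) ^ 2 +
      5/4*K * (m τ * ((d τ)⁻¹) ^ 3) - 5/4*K^2/r * ((d τ)⁻¹) ^ 3)) +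
      K^2/r * ((m τ) ^ 2 * ((d τ)⁻¹) ^ 6) - K^2/(4*r^2) * (m τ * ((d τ)⁻¹) ^ 4) -
      3*K^3/(4*r^2) * (m τ * ((d τ)⁻¹) ^ 6) := by
    funext τ
    unfold fB
    ring
  rw [hfun]
  refine (hE.congr_deriv ?_).congr_of_eventuallyEq (Filter.Eventually.of_forall fun τ => rfl)
  simp only [Pi.mul_apply, Pi.pow_apply, Pi.add_apply, Pi.sub_apply]
  unfold fBd fBm numY
  push_cast
  field_simp
  ring

end Pool.Agent.Helper131.FS
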