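import Pool.Agent.Helper131.FS.Base
import Pool.Agent.Helper131.FS.DefsU
import Pool.Agent.Helper131.FS.L_geom
import Pool.Agent.Helper131.FS.L_contDiffAt_U
import Pool.Agent.Helper131.FS.L_hasDerivAt_fA
import Pool.Agent.Helper131.FS.L_hasDerivAt_fB

namespace Pool.Agent.Helper131.FS

open MeasureTheory Set Filter Topology
open scoped ContDiff RealInnerProductSpace

theorem hasDerivAt_norm_line (n : ℕ) (x y v : E n) (hxy : 0 < ‖x - y‖) :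
    HasDerivAt (fun τ : ℝ => ‖(x + τ • v) - y‖) (⟪x - y, v⟫ / ‖x - y‖) 0 := by
  have h1 : HasDerivAt (fun τ : ℝ => (x + τ • v) - y) v 0 := by
    have h := ((hasDerivAt_id (0:ℝ)).smul_const v).const_add x |>.sub_const y
    simpa using h
  have h2 := h1.norm_sq
  have h3 : HasDerivAt (fun τ : ℝ => Real.sqrt (‖(x + τ • v) - y‖^2)) 
      (2 * ⟪(x + (0:ℝ) • v) - y, v⟫ / (2 * Real.sqrt (‖(x + (0:ℝ) • v) - y‖^2))) 0 := by
    apply HasDerivAt.sqrt h2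
    simp only [zero_smul, add_zero]
    positivity
  simp only [zero_smul, add_zero, Real.sqrt_sq (norm_nonneg _)] at h3
  convert h3 using 1
  field_simp

theorem fderiv_U (n : ℕ) (y : E n) (hy : 1 < ‖y‖) (x : E n) (hx : ‖x‖ ≤ 1) (v : E n) :
    fderiv ℝ (U n y) x v =
      fA ‖y‖ (‖y‖^2-1) ‖x - y‖ (‖y‖ - ⟪(1/‖y‖) • y, x⟫) • v
      + ((fAd ‖y‖ (‖y‖^2-1) ‖x - y‖ (‖y‖ - ⟪(1/‖y‖) • y, x⟫) / ‖x - y‖) * ⟪x - y, v⟫
          + (-fAm ‖y‖ (‖y‖^2-1) ‖x - y‖ (‖y‖ - ⟪(1/‖y‖) • y, x⟫)) * ⟪(1/‖y‖) • y, v⟫) • (x - y)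
      + ((fBd ‖y‖ (‖y‖^2-1) ‖x - y‖ (‖y‖ - ⟪(1/‖y‖) • y, x⟫) / ‖x - y‖) * ⟪x - y, v⟫
          + (-fBm ‖y‖ (‖y‖^2-1) ‖x - y‖ (‖y‖ - ⟪(1/‖y‖) • y, x⟫)) * ⟪(1/‖y‖) • y, v⟫) • ((1/‖y‖) • y) := by
  obtain ⟨g1, g2, g3, g4⟩ := geom n y hy x hx
  have hd : 0 < ‖x - y‖ := lt_of_lt_of_le g1 g2
  have hr : 0 < ‖y‖ := by linarith
  have hdiff : DifferentiableAt ℝ (U n y) x := (contDiffAt_U n y hy x hx).differentiableAt (by simp)
  have hline : HasDerivAt (fun τ : ℝ => x + τ • v) v 0 := by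
    have h := ((hasDerivAt_id (0:ℝ)).smul_const v).const_add x
    simpa using h
  have hA : HasDerivAt (fun τ : ℝ => U n y (x + τ • v)) (fderiv ℝ (U n y) x v) 0 := by
    have h0 : HasFDerivAt (U n y) (fderiv ℝ (U n y) x) (x + (0:ℝ) • v) := by
      simpa using hdiff.hasFDerivAt
    exact h0.comp_hasDerivAt (0:ℝ) hline
  have hdl := hasDerivAt_norm_line n x y v hd
  have hml : HasDerivAt (fun τ : ℝ => ‖y‖ - ⟪(1/‖y‖) • y, x + τ • v⟫) (-⟪(1/‖y‖) • y, v⟫) 0 := by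
    have h := ((hasDerivAt_const (0:ℝ) ((1/‖y‖) • y)).inner ℝ hline).const_sub ‖y‖
    simpa using h
  have kA := hasDerivAt_fA ‖y‖ (‖y‖^2-1) hr (fun τ : ℝ => ‖(x + τ • v) - y‖)
    (fun τ : ℝ => ‖y‖ - ⟪(1/‖y‖) • y, x + τ • v⟫) _ _ hdl hml (by simpa using hd) (by simpa using g1)
  have kB := hasDerivAt_fB ‖y‖ (‖y‖^2-1) hr (fun τ : ℝ => ‖(x + τ • v) - y‖)
    (fun τ : ℝ => ‖y‖ - ⟪(1/‖y‖) • y, x + τ • v⟫) _ _ hdl hml (by simpa using hd) (by simpa using g1)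
  have hp : HasDerivAt (fun τ : ℝ => (x + τ • v) - y) v 0 := hline.sub_const y
  have hB := (kA.smul hp).add (kB.smul_const ((1/‖y‖) • y))
  have hB' : HasDerivAt (fun τ : ℝ => U n y (x + τ • v)) _ 0 := hB
  have huniq := hA.unique hB'
  rw [huniq]
  simp only [zero_smul, add_zero]
  have e1 : ∀ (a b c d' s t : ℝ) , a * (s / d') + b * (-t) = (a / d') * s + (-b) * t := by
    intro a b c d' s t; ring
  rw [e1 _ _ 0, e1 _ _ 0]
  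

end Pool.Agent.Helper131.FS
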