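import Pool.Agent.Helper131.FS.Base

set_option maxRecDepth 100000

namespace Pool.Agent.Helper131.FS

open MeasureTheory Set Filter Topology
open scoped ContDiff RealInnerProductSpace

theorem j23293_key_plane_props (n k : ℕ) (P : E n →L[ℝ] E n) (hP : IsPlane n k P) (p e : E n) :
    ⟪p - P p, e - P e⟫ = ⟪p, e⟫ - ⟪p, P e⟫ := by
  obtain ⟨h1, h2, -⟩ := hP
  rw [inner_sub_left, inner_sub_right, inner_sub_right, h2 p e, h2 p (P e), h1 e]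
  ring

theorem plane_props (n k : ℕ) (P : E n →L[ℝ] E n) (hP : IsPlane n k P) (p e : E n) :
    0 ≤ ⟪p, p⟫ - ⟪p, P p⟫ ∧ 0 ≤ ⟪e, e⟫ - ⟪e, P e⟫ ∧ ⟪e, P p⟫ = ⟪p, P e⟫ ∧
    (⟪p, e⟫ - ⟪p, P e⟫)^2 ≤ (⟪p, p⟫ - ⟪p, P p⟫) * (⟪e, e⟫ - ⟪e, P e⟫) := by
  have hkey := fun p e => j23293_key_plane_props n k P hP p e
  refine ⟨?_, ?_, ?_, ?_⟩
  · rw [← hkey p p]; exact real_inner_self_nonneg
  · rw [← hkey e e]; exact real_inner_self_nonneg
  · rw [← hP.2.1 e p, real_inner_comm]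
  · rw [← hkey p p, ← hkey e e, ← hkey p e, sq]
    exact real_inner_mul_inner_self_le _ _

end Pool.Agent.Helper131.FS
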