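import Pool.Agent.Helper131.FS.Base

set_option maxRecDepth 100000

namespace Pool.Agent.Helper131.FS

open MeasureTheory Set Filter Topology
open scoped ContDiff RealInnerProductSpace

theorem psd (X Y W α β γ : ℝ) (hX : 0 ≤ X) (hY : 0 ≤ Y) (hW : W^2 ≤ 4*X*Y) (hα : 0 ≤ α)
    (hγ : 0 ≤ γ) (hβ : β^2 ≤ α*γ) : 0 ≤ X*α + W*β + Y*γ := by
  have hs : 0 ≤ X * α + Y * γ := by positivity
  have h1 : (W * β) ^ 2 ≤ (X * α + Y * γ) ^ 2 := by
    have e1 : (W * β) ^ 2 = W ^ 2 * β ^ 2 := by ring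
    have e2 : W ^ 2 * β ^ 2 ≤ (4 * X * Y) * (α * γ) :=
      mul_le_mul hW hβ (sq_nonneg _) (by positivity)
    nlinarith [sq_nonneg (X * α - Y * γ)]
  have h2 := abs_le_of_sq_le_sq h1 hs
  have h3 := (abs_le.1 h2).1
  linarith

end Pool.Agent.Helper131.FS
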