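import Pool.Agent.Helper131.FS.Base
import Pool.Agent.Helper131.FS.Coef
import Pool.Agent.Helper131.FS.DefsU
import Pool.Agent.Helper131.FS.L_contDiffAt_U
import Pool.Agent.Helper131.FS.L_fderiv_U
import Pool.Agent.Helper131.FS.L_geom
import Pool.Agent.Helper131.FS.L_hasDerivAt_fA
import Pool.Agent.Helper131.FS.L_hasDerivAt_fB
import Pool.Agent.Helper131.FS.L_plane_props
import Pool.Agent.Helper131.FS.L_psd
import Pool.Agent.Helper131.FS.L_trace_formula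

set_option maxRecDepth 100000

namespace Pool.Agent.Helper131.FS

open MeasureTheory Set Filter Topology
open scoped ContDiff RealInnerProductSpace

theorem div_nonneg' (n : ℕ) (y : E n) (hy : 1 < ‖y‖) (P : E n →L[ℝ] E n) (hP : IsPlane n 3 P)
    (x : E n) (hx : ‖x‖ ≤ 1) : 0 ≤ divP n P (U n y) x := by
  have hr : 0 < ‖y‖ := by linarith
  obtain ⟨g1, g2, g3, _⟩ := geom n y hy x hx
  unfold divP
  rw [trace_formula n 3 P hP _ _ _ _ _ _ (x - y) ((1/‖y‖) • y) (fun v => fderiv_U n y hy x hx v)]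
  obtain ⟨p1, p2, p3, p4⟩ := plane_props n 3 P hP (x - y) ((1/‖y‖) • y)
  have hpe : ⟪x - y, (1/‖y‖) • y⟫ = -(‖y‖ - ⟪(1/‖y‖) • y, x⟫) := by
    rw [inner_sub_left, real_inner_comm x, inner_smul_right y y, real_inner_self_eq_norm_sq]
    field_simp
    ring
  have hee : ⟪(1/‖y‖) • y, (1/‖y‖) • y⟫ = 1 := by
    rw [inner_smul_right, inner_smul_left, real_inner_self_eq_norm_sq]
    simp only [conj_trivial]
    field_simp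
  have hpp : ⟪x - y, x - y⟫ = ‖x - y‖ ^ 2 := real_inner_self_eq_norm_sq _
  rw [hpe, hee, hpp] at p4
  rw [hpp] at p1
  rw [hee] at p2
  rw [p3]
  obtain ⟨d, hd⟩ : ∃ d, d = ‖x - y‖ := ⟨_, rfl⟩
  obtain ⟨m, hm⟩ : ∃ m, m = ‖y‖ - ⟪(1/‖y‖) • y, x⟫ := ⟨_, rfl⟩
  obtain ⟨q, hq⟩ : ∃ q, q = ⟪x - y, P (x - y)⟫ := ⟨_, rfl⟩
  obtain ⟨s, hs⟩ : ∃ s, s = ⟪x - y, P ((1/‖y‖) • y)⟫ := ⟨_, rfl⟩
  obtain ⟨t, ht⟩ : ∃ t, t = ⟪(1/‖y‖) • y, P ((1/‖y‖) • y)⟫ := ⟨_, rfl⟩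
  rw [← hd, ← hm] at g2 g3
  rw [← hm] at g1
  rw [← hd, ← hm, ← hq, ← hs, ← ht] at p4
  rw [← hd, ← hq] at p1
  rw [← ht] at p2
  rw [← hd, ← hm, ← hq, ← hs, ← ht]
  obtain ⟨K, hK⟩ : ∃ K, K = ‖y‖^2 - 1 := ⟨_, rfl⟩
  have hK0 : 0 ≤ K := by rw [hK]; nlinarith
  rw [← hK] at g3 ⊢
  have hd0 : 0 < d := lt_of_lt_of_le g1 g2
  obtain ⟨c1, c2, c3⟩ := coef_nonneg ‖y‖ K d m hr hK0 g1 g2 g3
  have hb := bracket ‖y‖ K d m hr hd0 g1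
  have hpsd := psd (-fAd ‖y‖ K d m / d) (fBm ‖y‖ K d m) (fAm ‖y‖ K d m - fBd ‖y‖ K d m / d)
    (d ^ 2 - q) (-m - s) (1 - t) c1 c2 c3 p1 p2 p4
  have hAd : fAd ‖y‖ K d m = (fAd ‖y‖ K d m / d) * d := by field_simp
  have key : ((3 : ℕ) : ℝ) * fA ‖y‖ K d m + fAd ‖y‖ K d m / d * q + -fAm ‖y‖ K d m * s +
      fBd ‖y‖ K d m / d * s + -fBm ‖y‖ K d m * t =
      (3 * fA ‖y‖ K d m + d * fAd ‖y‖ K d m + m * fAm ‖y‖ K d m - m * fBd ‖y‖ K d m / d - fBm ‖y‖ K d m) +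
      ((-fAd ‖y‖ K d m / d) * (d ^ 2 - q) + (fAm ‖y‖ K d m - fBd ‖y‖ K d m / d) * (-m - s) +
        fBm ‖y‖ K d m * (1 - t)) := by
    push_cast
    field_simp
    ring
  rw [key, hb, zero_add]
  exact hpsd

end Pool.Agent.Helper131.FS
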