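import Pool.Agent.Helper131.FS.Base
import Pool.Agent.Helper131.FS.Coef
import Pool.Agent.Helper131.FS.DefsU
import Pool.Agent.Helper131.FS.L_geom

set_option maxRecDepth 100000

namespace Pool.Agent.Helper131.FS

open MeasureTheory Set Filter Topology
open scoped ContDiff RealInnerProductSpace

theorem flux (n : ℕ) (y : E n) (hy : 1 < ‖y‖) (x : E n) (hx : ‖x‖ = 1) :
    ⟪U n y x, x⟫ = 1 - ((‖y‖^2-1)/‖x - y‖^2)^2 := by
  obtain ⟨h1, h2, -, h4⟩ := geom n y hy x hx.le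
  have h4' := h4 hx
  have hr : 0 < ‖y‖ := by linarith
  have hd : 0 < ‖x - y‖ := lt_of_lt_of_le h1 h2
  have hm : ‖y‖ - ⟪(1/‖y‖) • y, x⟫ = (‖x - y‖^2 + (‖y‖^2 - 1)) / (2*‖y‖) := by
    rw [h4']
    field_simp
  have hb := boundary_id ‖y‖ ‖x - y‖ hy hd
  rw [← hm] at hb
  have e1 : ⟪x - y, x⟫ = 1 - ‖y‖ * (‖y‖ - (‖y‖ - ⟪(1/‖y‖) • y, x⟫)) := by
    rw [inner_sub_left, real_inner_self_eq_norm_sq, hx, real_inner_smul_left]
    field_simp
    ring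
  have e2 : ⟪(1/‖y‖) • y, x⟫ = ‖y‖ - (‖y‖ - ⟪(1/‖y‖) • y, x⟫) := by ring
  rw [← hb]
  unfold U
  rw [inner_add_left, real_inner_smul_left, real_inner_smul_left _ _ (fB _ _ _ _), e1]
  congr 1
  congr 1

end Pool.Agent.Helper131.FS
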