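import Pool.Agent.Helper131.FS.Base

set_option maxRecDepth 100000

namespace Pool.Agent.Helper131.FS

open MeasureTheory Set Filter Topology
open scoped ContDiff RealInnerProductSpace

theorem trace_formula (n k : ℕ) (P : E n →L[ℝ] E n) (hP : IsPlane n k P) (L : E n →ₗ[ℝ] E n)
    (a b c b' c' : ℝ) (p e : E n)
    (hL : ∀ v, L v = a • v + (b * ⟪p, v⟫ + c * ⟪e, v⟫) • p + (b' * ⟪p, v⟫ + c' * ⟪e, v⟫) • e) :
    LinearMap.trace ℝ (E n) ((P : E n →ₗ[ℝ] E n) ∘ₗ L) =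
      k * a + b * ⟪p, P p⟫ + c * ⟪e, P p⟫ + b' * ⟪p, P e⟫ + c' * ⟪e, P e⟫ := by
  have hidem : IsIdempotentElem (P : E n →ₗ[ℝ] E n) := by
    ext1 x
    exact hP.1 x
  have htr : LinearMap.trace ℝ (E n) (P : E n →ₗ[ℝ] E n) = k := by
    have h1 := (LinearMap.IsIdempotentElem.isProj_range _ hidem).trace
    rw [h1, hP.2.2]
  have hPL : (P : E n →ₗ[ℝ] E n) ∘ₗ L = a • (P : E n →ₗ[ℝ] E n) +
      (b • (innerₛₗ ℝ p) + c • (innerₛₗ ℝ e)).smulRight (P p) +
      (b' • (innerₛₗ ℝ p) + c' • (innerₛₗ ℝ e)).smulRight (P e) := by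
    ext1 v
    simp only [LinearMap.comp_apply, hL, ContinuousLinearMap.coe_coe, map_add, map_smul,
      LinearMap.add_apply, LinearMap.smul_apply, LinearMap.smulRight_apply, smul_eq_mul,
      innerₛₗ_apply_apply]
  rw [hPL, map_add, map_add, map_smul, htr, LinearMap.trace_smulRight, LinearMap.trace_smulRight]
  simp only [LinearMap.add_apply, LinearMap.smul_apply, smul_eq_mul, innerₛₗ_apply_apply]
  ring

end Pool.Agent.Helper131.FS
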