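import Pool.Agent.Helper131.FS.Base
import Pool.Agent.Helper131.FS.Coef
import Pool.Agent.Helper131.FS.DefsU
import Pool.Agent.Helper131.FS.L_contDiffAt_U
import Pool.Agent.Helper131.FS.L_div_nonneg
import Pool.Agent.Helper131.FS.L_fderiv_U
import Pool.Agent.Helper131.FS.L_flux
import Pool.Agent.Helper131.FS.L_geom
import Pool.Agent.Helper131.FS.L_hasDerivAt_fA
import Pool.Agent.Helper131.FS.L_hasDerivAt_fB
import Pool.Agent.Helper131.FS.L_plane_props
import Pool.Agent.Helper131.FS.L_psd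
import Pool.Agent.Helper131.FS.L_trace_formula

set_option maxRecDepth 100000

namespace Pool.Agent.Helper131.FS

open MeasureTheory Set Filter Topology
open scoped ContDiff RealInnerProductSpace

theorem main_ineq (n : ℕ) (S : FreeBoundaryMinimal n 3) (y : E n) (hy : 1 < ‖y‖) :
    ∫ x, ((‖y‖^2-1)/‖x - y‖^2)^2 ∂S.σ ≤ S.σ.real univ := by
  have hfin := S.finσ
  have hfv := S.first_variation (U n y) (fun x hx => contDiffAt_U n y hy x hx)
  have h0 : 0 ≤ ∫ q, divP n q.2 (U n y) q.1 ∂S.V := by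
    apply integral_nonneg_of_ae
    filter_upwards [S.in_ball, S.plane] with q h1 h2
    exact div_nonneg' n y hy q.2 h2 q.1 h1
  have hcongr : ∫ x, ⟪U n y x, x⟫ ∂S.σ = ∫ x, (1 - ((‖y‖^2-1)/‖x - y‖^2)^2) ∂S.σ := by
    apply integral_congr_ae
    filter_upwards [S.on_sphere] with x hx
    exact flux n y hy x hx
  have hm : Measurable fun x : E n => ((‖y‖^2-1)/‖x - y‖^2)^2 := by fun_prop
  have hi : Integrable (fun x : E n => ((‖y‖^2-1)/‖x - y‖^2)^2) S.σ := by
    refine Integrable.of_bound hm.aestronglyMeasurable (((‖y‖^2-1)/(‖y‖-1)^2)^2) ?_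
    filter_upwards [S.on_sphere] with x hx
    have h1 : ‖y‖ - 1 ≤ ‖x - y‖ := by
      have := norm_sub_norm_le y x
      rw [norm_sub_rev, hx] at this
      exact this
    have h2 : 0 < ‖y‖ - 1 := by linarith
    have h3 : 0 ≤ ‖y‖^2 - 1 := by nlinarith
    rw [Real.norm_eq_abs, abs_of_nonneg (sq_nonneg _)]
    apply pow_le_pow_left₀ (div_nonneg h3 (sq_nonneg _))
    apply div_le_div_of_nonneg_left h3 (by positivity)
    exact pow_le_pow_left₀ h2.le h1 2
  rw [hcongr, integral_sub (integrable_const 1) hi, integral_const, smul_eq_mul, mul_one] at hfv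
  linarith

end Pool.Agent.Helper131.FS
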