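import Pool.Agent.Helper131.FS.Base
set_option maxRecDepth 100000
namespace Pool.Agent.Helper131.FS

/-- numerator X -/
noncomputable def gX (m d r K : ℝ) : ℝ := (-24*m^4*d^2*K^2 - 48*m^4*K^3 - 48*m^3*d^3*K^2 - 96*m^3*d*K^3 - 20*m^2*d^4*K^2 - 42*m^2*d^2*K^3 + 8*m*d^5*K^2 + 12*m*d^3*K^3 + 4*d^6*K^2 + 6*d^4*K^3)*r^0 + (96*m^5*K^2 + 192*m^4*d*K^2 + 72*m^3*d^2*K^2 - (15/2)*m^2*d^5*K - (171/2)*m^2*d^3*K^2 - 15*m*d^6*K - 79*m*d^4*K^2 - (15/2)*d^7*K - (25/2)*d^5*K^2)*r^1 + (75*m^3*d^3*K + 142*m^2*d^4*K + 4*m*d^7 + 62*m*d^5*K + 8*d^8 - 4*d^6*K)*r^2 + (24*m^2*d^5 + 48*m*d^6 + 24*d^7)*r^3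

theorem gX_nonneg (m t K u r : ℝ) (hm : 0 < m) (ht : 0 ≤ t) (hK : 0 ≤ K) (hu : 0 ≤ u) (hr : 2*m*r = (m+t)^2+K+u) : 0 ≤ gX m (m+t) r K := by
  have h1 : (2*m)^3 * gX m (m+t) r K = (-24*m^4*(m+t)^2*K^2 - 48*m^4*K^3 - 48*m^3*(m+t)^3*K^2 - 96*m^3*(m+t)*K^3 - 20*m^2*(m+t)^4*K^2 - 42*m^2*(m+t)^2*K^3 + 8*m*(m+t)^5*K^2 + 12*m*(m+t)^3*K^3 + 4*(m+t)^6*K^2 + 6*(m+t)^4*K^3)*(2*m)^3*(2*m*r)^0 + (96*m^5*K^2 + 192*m^4*(m+t)*K^2 + 72*m^3*(m+t)^2*K^2 - (15/2)*m^2*(m+t)^5*K - (171/2)*m^2*(m+t)^3*K^2 - 15*m*(m+t)^6*K - 79*m*(m+t)^4*K^2 - (15/2)*(m+t)^7*K - (25/2)*(m+t)^5*K^2)*(2*m)^2*(2*m*r)^1 + (75*m^3*(m+t)^3*K + 142*m^2*(m+t)^4*K + 4*m*(m+t)^7 + 62*m*(m+t)^5*K + 8*(m+t)^8 - 4*(m+t)^6*K)*(2*m)^1*(2*m*r)^2 + (24*m^2*(m+t)^5 + 48*m*(m+t)^6 +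 24*(m+t)^7)*(2*m)^0*(2*m*r)^3 := by
    unfold gX; ring
  rw [hr] at h1
  have h2 : (2*m)^3 * gX m (m+t) r K = 120*m^13 + 1432*m^12*t + 7856*m^11*t^2 + 766*m^11*K + 336*m^11*u + 26224*m^10*t^3 + 6742*m^10*t*K + 3344*m^10*t*u + 59400*m^9*t^4 + 26864*m^9*t^2*K + 15048*m^9*t^2*u + 1384*m^9*K^2 + 1604*m^9*K*u + 312*m^9*u^2 + 96360*m^8*t^5 + 64072*m^8*t^3*K + 40392*m^8*t^3*u + 6888*m^8*t*K^2 + 10772*m^8*t*K*u + 2488*m^8*t*u^2 + 115104*m^7*t^6 + 101852*m^7*t^4*K + 71808*m^7*t^4*u + 17224*m^7*t^2*K^2 + 31954*m^7*t^2*K*u + 8752*m^7*t^2*u^2 + 34*m^7*K^3 + 2120*m^7*K^2*u + 838*m^7*K*u^2 + 96*m^7*u^3 + 102432*m^6*t^7 + 113596*m^6*t^5*K + 88704*m^6*t^5*u + 28088*m^6*t^3*K^2 + 55210*m^6*t^3*K*u + 17808*m^6*t^3*u^2 + 578*m^6*t*K^3 + 4848*m^6*t*K^2*u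 + 3886*m^6*t*K*u^2 + 576*m^6*t*u^3 + 67848*m^5*t^8 + 90944*m^5*t^6*K + 77616*m^5*t^6*u + 31280*m^5*t^4*K^2 + 61624*m^5*t^4*K*u + 23072*m^5*t^4*u^2 + 1844*m^5*t^2*K^3 + 7806*m^5*t^2*K^2*u + 7666*m^5*t^2*K*u^2 + 1464*m^5*t^2*u^3 + 33000*m^4*t^9 + 52384*m^4*t^7*K + 48048*m^4*t^7*u + 23680*m^4*t^5*K^2 + 46424*m^4*t^5*K*u + 19712*m^4*t^5*u^2 + 2588*m^4*t^3*K^3 + 8746*m^4*t^3*K^2*u + 8486*m^4*t^3*K*u^2 + 2040*m^4*t^3*u^3 + 11440*m^3*t^10 + 21302*m^3*t^8*K + 20592*m^3*t^8*u + 12040*m^3*t^6*K^2 + 23762*m^3*t^6*K*u + 11088*m^3*t^6*u^2 + 1946*m^3*t^4*K^3 + 6042*m^3*t^4*K^2*u + 5824*m^3*t^4*K*u^2 + 1680*m^3*t^4*u^3 + 2672*m^2*t^11 + 5822*m^2*t^9*K + 5808*m^2*t^9*u + 3992*m^2*t^7*K^2 + 7994*m^2*t^7*K*u + 3952*m^2*t^7*u^2 + 842*m^2*t^5*K^3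 + 2550*m^2*t^5*K^2*u + 2524*m^2*t^5*K*u^2 + 816*m^2*t^5*u^3 + 376*m*t^12 + 960*m*t^10*K + 968*m*t^10*u + 792*m*t^8*K^2 + 1600*m*t^8*K*u + 808*m*t^8*u^2 + 208*m*t^6*K^3 + 632*m*t^6*K^2*u + 640*m*t^6*K*u^2 + 216*m*t^6*u^3 + 24*t^13 + 72*t^11*K + 72*t^11*u + 72*t^9*K^2 + 144*t^9*K*u + 72*t^9*u^2 + 24*t^7*K^3 + 72*t^7*K^2*u + 72*t^7*K*u^2 + 24*t^7*u^3 := by rw [h1]; ring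
  have h3 : 0 ≤ (2*m)^3 * gX m (m+t) r K := by rw [h2]; positivity
  exact nonneg_of_mul_nonneg_right h3 (by positivity)

/-- numerator Y -/
noncomputable def gY (m d r K : ℝ) : ℝ := (-m^2*d^2*K^2 - 3*m^2*K^3 - 2*m*d^3*K^2 - 6*m*d*K^3 - d^4*K^2 - 3*d^2*K^3)*r^0 + (8*m^3*K^2 + 16*m^2*d*K^2 + 8*m*d^2*K^2 + 5*d^3*K^2)*r^1 + (4*d^6 + d^4*K)*r^2

theorem gY_nonneg (m t K u r : ℝ) (hm : 0 < m) (ht : 0 ≤ t) (hK : 0 ≤ K) (hu : 0 ≤ u) (hr : 2*m*r = (m+t)^2+K+u) : 0 ≤ gY m (m+t) r K := by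
  have h1 : (2*m)^2 * gY m (m+t) r K = (-m^2*(m+t)^2*K^2 - 3*m^2*K^3 - 2*m*(m+t)^3*K^2 - 6*m*(m+t)*K^3 - (m+t)^4*K^2 - 3*(m+t)^2*K^3)*(2*m)^2*(2*m*r)^0 + (8*m^3*K^2 + 16*m^2*(m+t)*K^2 + 8*m*(m+t)^2*K^2 + 5*(m+t)^3*K^2)*(2*m)^1*(2*m*r)^1 + (4*(m+t)^6 + (m+t)^4*K)*(2*m)^0*(2*m*r)^2 := by
    unfold gY; ring
  rw [hr] at h1
  have h2 : (2*m)^2 * gY m (m+t) r K = 4*m^10 + 40*m^9*t + 180*m^8*t^2 + 9*m^8*K + 8*m^8*u + 480*m^7*t^3 + 72*m^7*t*K + 64*m^7*t*u + 840*m^6*t^4 + 252*m^6*t^2*K + 224*m^6*t^2*u + 64*m^6*K^2 + 10*m^6*K*u + 4*m^6*u^2 + 1008*m^5*t^5 + 504*m^5*t^3*K + 448*m^5*t^3*u + 230*m^5*t*K^2 + 60*m^5*t*K*u + 24*m^5*t*u^2 + 840*m^4*t^6 + 630*m^4*t^4*K + 560*m^4*t^4*u + 346*m^4*t^2*K^2 + 150*m^4*t^2*K*u + 60*m^4*t^2*u^2 + 27*m^4*K^3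 + 76*m^4*K^2*u + m^4*K*u^2 + 480*m^3*t^7 + 504*m^3*t^5*K + 448*m^3*t^5*u + 292*m^3*t^3*K^2 + 200*m^3*t^3*K*u + 80*m^3*t^3*u^2 + 50*m^3*t*K^3 + 102*m^3*t*K^2*u + 4*m^3*t*K*u^2 + 180*m^2*t^8 + 252*m^2*t^6*K + 224*m^2*t^6*u + 152*m^2*t^4*K^2 + 150*m^2*t^4*K*u + 60*m^2*t^4*u^2 + 40*m^2*t^2*K^3 + 58*m^2*t^2*K^2*u + 6*m^2*t^2*K*u^2 + 40*m*t^9 + 72*m*t^7*K + 64*m*t^7*u + 46*m*t^5*K^2 + 60*m*t^5*K*u + 24*m*t^5*u^2 + 14*m*t^3*K^3 + 18*m*t^3*K^2*u + 4*m*t^3*K*u^2 + 4*t^10 + 9*t^8*K + 8*t^8*u + 6*t^6*K^2 + 10*t^6*K*u + 4*t^6*u^2 + t^4*K^3 + 2*t^4*K^2*u + t^4*K*u^2 := by rw [h1]; ring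
  have h3 : 0 ≤ (2*m)^2 * gY m (m+t) r K := by rw [h2]; positivity
  exact nonneg_of_mul_nonneg_right h3 (by positivity)


theorem numX_nonneg (m t K u r : ℝ) (hm : 0 < m) (ht : 0 ≤ t) (hK : 0 ≤ K) (hu : 0 ≤ u)
    (hr : 2*m*r = (m+t)^2+K+u) : 0 ≤ numX m (m+t) r K := by
  have h := gX_nonneg m t K u r hm ht hK hu hr
  have e : numX m (m+t) r K = gX m (m+t) r K := by unfold numX gX; ring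
  rw [e]; exact h

theorem numY_nonneg (m t K u r : ℝ) (hm : 0 < m) (ht : 0 ≤ t) (hK : 0 ≤ K) (hu : 0 ≤ u)
    (hr : 2*m*r = (m+t)^2+K+u) : 0 ≤ numY m (m+t) r K := by
  have h := gY_nonneg m t K u r hm ht hK hu hr
  have e : numY m (m+t) r K = gY m (m+t) r K := by unfold numY gY; ring
  rw [e]; exact h

end Pool.Agent.Helper131.FS
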